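import Pool.Agent.Helper33.TB.Defs

/-!
# Project TB (MP_74f661_nt): packets A (thinning), B (renewal identity), C (concentration), D (assembly)

Theorem (core).  `(log z / log log z)^2 D_z → - e^(-2γ)`, where `D_z` is the average of
`(-1)^(distance to the next element)` over the elements of a full period of the set of all `t` with
`p ∤ (6 t + 5) (6 t + 7)` for `5 ≤ p ≤ z`.

Plan.  `L = (log z)^20`.  On windows of length `(log z)^3` the primes `p > L` act as independent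
thinning with `τ = Gz z / Gz L` (A).  So `D_z ρ_z = τ^2 Av (X F)`, `X` the set for `L`, `F` the signed
sum with index weights.  By B `Av (X F)` is close to `Av (X V)`, `V` the signed sum with position
weights, if the counts in short blocks are concentrated, which is C.  `Av (X V)` is the pair
correlation sum of helper22 (`StmtE1`, `StmtE2`).

Every `Stmt...` is a packet: prove `theorem xx (hyp : StmtYY) ... : StmtXX` in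
`Pool/Agent/<YourSeat>/TB/<NAME>.lean`; all other `Stmt...` may be taken as hypotheses.
-/

set_option autoImplicit false

open Finset Filter Topology

namespace Pool.Agent.Helper33.TB

open Pool.Agent.Helper90.Twin (Ps Gz Xz)

/-! ## Basic facts -/

/-- PACKET PER (periodic functions).
Proof.  `shift`: for `k = 1` telescoping (`Finset.sum_range_succ`, `sum_range_succ'`), then induction
on `k ≥ 0` and `k ≤ 0`; if `Q = 0` both sides are `0`.  `mult`: split `range (Q * k)` into `k` blocks.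
`crt`: `t ↦ (t mod Q₁, t mod Q₂)` is a bijection of `range (Q₁ Q₂)` with
`range Q₁ ×ˢ range Q₂` (`Nat.chineseRemainder`, `Pool.Agent.Helper90.Twin.sum_range_mul_coprime` is
the case of a product), and `F t t = F (t % Q₁) (t % Q₂)`.  `shift2` follows from periodicity. -/
structure StmtPER : Prop where
  shift : ∀ (Q : ℕ) (f : ℤ → ℝ), Per Q f → ∀ k : ℤ, Av Q (fun t => f (t + k)) = Av Q f
  mult : ∀ (Q k : ℕ) (f : ℤ → ℝ), Per Q f → 0 < k → Av (Q * k) f = Av Q f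
  crt : ∀ (Q₁ Q₂ : ℕ), 0 < Q₁ → 0 < Q₂ → Nat.Coprime Q₁ Q₂ → ∀ F : ℤ → ℤ → ℝ,
    (∀ a b, F (a + Q₁) b = F a b) → (∀ a b, F a (b + Q₂) = F a b) →
      Av (Q₁ * Q₂) (fun t => F t t) = Av Q₁ (fun a => Av Q₂ (fun b => F a b))
  per_int : ∀ (Q : ℕ) (f : ℤ → ℝ), Per Q f → ∀ (t k : ℤ), f (t + k * Q) = f t

/-- PACKET XSB (the sieve indicator).
Proof.  `yI p` has period `p` (`6 p` is divisible by `p`), so `XS s` has period `QS s`.  `two`: `6` is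
invertible modulo `p` and the two classes are different as `p ∤ 2`
(`Pool.Agent.Helper90.Twin.yy_sum`).  `mean`: CRT (`StmtPER.crt`) and induction on `s`.
`sep`: `p ∣ (6 (t+i) + a) - (6 (t+j) + a')` with `a, a' ∈ {5, 7}` gives `p ∣ 3 (i - j) + c` with
`c ∈ {-1, 0, 1}`, of absolute value `≤ 3 H + 1 < p` and not `0`.  `cnt`: among `p` consecutive
integers exactly two have `yI p = 1`; cover `range b` by `b / p + 1` blocks.  `ne`: the mean is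
positive.  `nat`: `Int.natCast_dvd_natCast`. -/
structure StmtXSB : Prop where
  yzo : ∀ (p : ℕ) (t : ℤ), yI p t = 0 ∨ yI p t = 1
  yper : ∀ (p : ℕ), Per p (yI p)
  zo : ∀ (s : Finset ℕ) (t : ℤ), XS s t = 0 ∨ XS s t = 1
  per : ∀ s : Finset ℕ, Per (QS s) (XS s)
  mul : ∀ s s' : Finset ℕ, Disjoint s s' → ∀ t, XS (s ∪ s') t = XS s t * XS s' t
  cop : ∀ s s' : Finset ℕ, (∀ p ∈ s, p.Prime) → (∀ p ∈ s', p.Prime) → Disjoint s s' →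
    Nat.Coprime (QS s) (QS s') ∧ QS (s ∪ s') = QS s * QS s' ∧ 0 < QS s
  two : ∀ p : ℕ, p.Prime → 5 ≤ p → Av p (yI p) = 2 / (p : ℝ)
  mean : ∀ s : Finset ℕ, (∀ p ∈ s, p.Prime ∧ 5 ≤ p) → Av (QS s) (XS s) = gS s
  sep : ∀ (p H : ℕ), p.Prime → 5 ≤ p → 3 * H + 1 < p → ∀ (t : ℤ) (i j : ℕ), i ≤ H → j ≤ H →
    yI p (t + i) = 1 → yI p (t + j) = 1 → i = j
  cnt : ∀ (p b : ℕ), p.Prime → 5 ≤ p → ∀ t : ℤ, Nb (yI p) b t ≤ 2 * ((b : ℝ) / p + 1)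
  ne : ∀ s : Finset ℕ, (∀ p ∈ s, p.Prime ∧ 5 ≤ p) → Sq (QS s) (XS s)
  nat : ∀ z t : ℕ, XS (Ps z) (t : ℤ) = Xz z t
  dens : ∀ z : ℕ, gS (Ps z) = Gz z

/-- PACKET PCR (pair correlation).  Uses PER, XSB.
Proof.  `XS s t * XS s (t + h) = ∏ p ∈ s, (1 - yI p t) (1 - yI p (t + h))`; by CRT the average is the
product of the averages over the classes modulo `p`, and the number of the `t` modulo `p` with
`yI p t = yI p (t + h) = 0` is `p - 2` if `p ∣ h`, `p - 3` if `p ∣ 3 h ± 1`, `p - 4` otherwise: the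
forbidden classes are `-5/6, -7/6, -5/6 - h, -7/6 - h`, which coincide iff `6 h ∈ {0, 2, -2}`.
So the factor is `(1 - 2/p) wp p h`. -/
def StmtPCR : Prop := ∀ (L h : ℕ), 1 ≤ h →
  Av (QS (Ps L)) (fun t => XS (Ps L) t * XS (Ps L) (t + h)) = Gz L * PL L h ∧
  Av (QS (Ps L)) (fun t => XS (Ps L) t * XS (Ps L) (t - h)) = Gz L * PL L h

/-! ## B. The renewal identity (no arithmetic) -/

/-- PACKET EX (the periodic solutions exist).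
Proof.  General fact: if `a, c : ℤ → ℝ` have period `Q > 0` and `|∏_{t < Q} c t| < 1` then there is an
`x` of period `Q` with `x (t+1) = a t + c t * x t`: `x Q = A + C x 0` with `C = ∏ c`, choose
`x 0 = A / (1 - C)` and define `x` on `{0, …, Q-1}` by the recursion and by periodicity elsewhere.
For `V`: `a = -X`, `c = -(1-s)`.  For `F` reverse the time: `x t = F (-t)`, so
`x (t+1) = F (-t-1) = -X (-t) - (1 - τ X (-t)) x t`; `|∏ c| < 1` since `|c| ≤ 1` and `c = τ - 1` for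
some `t` of the period.  Bounds: let `M = max |V|`; `M ≤ 1 + (1-s) M`, so `M ≤ 1/s`.  Let
`M = max |F|`, attained at `t`; if `X (t+1) = 0` then `|F (t+1)| = |F t| = M`; so we reach a `t` with
`|F t| = M` and `X (t+1) = 1`, and `M ≤ 1 + (1-τ) M`. -/
def StmtEX : Prop := ∀ (Q : ℕ) (X : ℤ → ℝ), Sq Q X → ∀ τ s : ℝ, 0 < τ → τ ≤ 1 → 0 < s → s < 1 →
  (∃ F : ℤ → ℝ, Per Q F ∧ RecF X τ F ∧ ∀ t, |F t| ≤ 1 / τ) ∧
  (∃ V : ℤ → ℝ, Per Q V ∧ RecV X s V ∧ ∀ t, |V t| ≤ 1 / s)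

/-- PACKET ID (three identities).  Uses PER.
Proof.  (1) Compute `Av (V (t+1) F t)` twice.  Insert `V (t+1)`: `- Av (X F) - (1-s) Av (V F)`.  Insert
`F t` and shift by `-1`: `- Av (V X) - Av (V (1 - τ X) F)`.  Subtract.
(2) `V (t+1)^2 = X t + 2 (1-s) X t V t + (1-s)^2 V t^2` (`X^2 = X`); average, `Av (V (t+1)^2) = Av (V^2)`.
(3) `F t^2 = X + 2 (1-τ) X F + (1 - τ (2-τ) X) F^2` at `t + 1`; average. -/
def StmtID : Prop := ∀ (Q : ℕ) (X : ℤ → ℝ), Sq Q X → ∀ (τ s : ℝ) (F V : ℤ → ℝ), Per Q F → Per Q V →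
  RecF X τ F → RecV X s V →
  Av Q (fun t => X t * F t) = Av Q (fun t => X t * V t)
    - Av Q (fun t => (τ * X t - s) * V t * F t) ∧
  (2 * s - s ^ 2) * Av Q (fun t => V t ^ 2) = Av Q X + 2 * (1 - s) * Av Q (fun t => X t * V t) ∧
  τ * (2 - τ) * Av Q (fun t => X t * F t ^ 2) = Av Q X + 2 * (1 - τ) * Av Q (fun t => X t * F t)

/-- PACKET EXP (expansion over a window).
Proof.  Induction on `H`: `Pc X τ H t = Pw X τ (H+1) t`, insert the recursion for `F (t+H)`; for `V` insert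
`V (t - H) = - X (t - H - 1) - (1-s) V (t - H - 1)`. -/
def StmtEXP : Prop :=
  (∀ (X : ℤ → ℝ) (τ : ℝ) (F : ℤ → ℝ), RecF X τ F → ∀ (t : ℤ) (H : ℕ),
    F t = ∑ h ∈ Icc 1 H, (-1) ^ h * (Pw X τ h t * X (t + (h : ℤ))) +
      (-1) ^ H * Pc X τ H t * F (t + (H : ℤ))) ∧
  (∀ (X : ℤ → ℝ) (s : ℝ) (V : ℤ → ℝ), RecV X s V → ∀ (t : ℤ) (H : ℕ),
    V t = ∑ h ∈ Icc 1 H, (-1) ^ h * ((1 - s) ^ (h - 1) * X (t - (h : ℤ))) +
      (-1) ^ H * (1 - s) ^ H * V (t - (H : ℤ)))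

/-- PACKET P1 (the basic inequality in one block).
Proof.  Let `G m = (-1)^m F (t+m)`, `U m = (-1)^m V (t+m)`, so `V (t+m) F (t+m) = U m G m`, and
`G m = (-1)^(m+1) X (t+m+1) + (1 - τ X (t+m+1)) G (m+1)`, `U (m+1) = (-1)^m X (t+m) + (1-s) U m`.
Hence `|G m - G (m+1)| ≤ 2 X (t+m+1)` (as `τ |F| ≤ 1`), `|G m - G b| ≤ 2 N`; `|U m| ≤ |U 0| + N`,
`|U m - U 0| ≤ N + s b (|U 0| + N)` for `m ≤ b`, `N = Nb X (b+1) t`.  So
`|U m G m - U 0 G b| ≤ (N + s b (|U 0| + N)) |G b| + 2 N (|U 0| + N)`.  Multiply by `τ X (t+m) - s`, sum over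
`m < b`: `∑ (τ X - s) = τ Nb X b t - s b`, `∑ |τ X - s| ≤ τ N + s b`. -/
def StmtP1 : Prop := ∀ (X : ℤ → ℝ) (τ s : ℝ) (F V : ℤ → ℝ), (∀ t, X t = 0 ∨ X t = 1) → 0 ≤ τ →
  0 ≤ s → s ≤ 1 → RecF X τ F → RecV X s V → (∀ t, τ * |F t| ≤ 1) → ∀ (b : ℕ) (t : ℤ),
  |∑ m ∈ range b, (τ * X (t + (m : ℤ)) - s) * V (t + (m : ℤ)) * F (t + (m : ℤ))| ≤
    |τ * Nb X b t - s * b| * (|V t| * |F (t + (b : ℤ))|) +
    (τ * Nb X (b + 1) t + s * b) *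
      ((Nb X (b + 1) t + s * b * (|V t| + Nb X (b + 1) t)) * |F (t + (b : ℤ))| +
        2 * Nb X (b + 1) t * (|V t| + Nb X (b + 1) t))

/-- PACKET T1 (the error term of the renewal identity).  Uses PER, P1.
Proof.  Write `ρ = Av Q X`, `s = τ ρ`, `β = ρ b √τ ≤ 1`, `y = Av (F^2)`, `v = Av (V^2)`.  By shift invariance the
left side is `(1/b) |Av_t ∑_{m<b} (τ X - s) V F (t+m)|`.  Call `t` good if `|Nb X b t - ρ b| ≤ ε ρ b`; the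
proportion of bad `t` is at most `δ` and there `|∑| ≤ b τ (1/s)(1/τ) = b/s` (`|τ X - s| ≤ τ` as `ρ ≤ 1`).
For good `t`: `N := Nb X (b+1) t ≤ (1+ε) ρ b + 1 ≤ 2 ρ b`, `τ N + s b ≤ 3 s b`, `s b ≤ β ≤ 1`, so by P1
`|∑| ≤ τ ρ b {(ε + 3 s b) |V t| |F (t+b)| + 12 ρ b (|V t| + |F (t+b)|) + 24 (ρ b)^2}`.  Average (Cauchy-Schwarz,
`Av |V| ≤ √v`, `Av |F| ≤ √y`) and divide by `b`: with `v' = τ v`, `y' = τ y` the result is at most
`ρ {(ε + 3 β) √(v' y') + 12 β (√v' + √y') + 24 β^2} + δ/s`, which is `≤` the right side since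
`√(v' y') ≤ (v' + y')/2`, `√y' ≤ (1 + y')/2`, `β^2 ≤ β`, `δ/s = ρ δ/(τ ρ^2)`. -/
def StmtT1 : Prop := ∀ (Q : ℕ) (X : ℤ → ℝ), Sq Q X → ∀ (τ : ℝ) (b : ℕ) (ε δ : ℝ) (F V : ℤ → ℝ),
  0 < τ → τ ≤ 1 → 0 ≤ ε → ε ≤ 1 / 2 → 0 ≤ δ → 2 ≤ Av Q X * b → Av Q X * b * Real.sqrt τ ≤ 1 →
  Conc Q X b ε δ → Per Q F → Per Q V → RecF X τ F → RecV X (τ * Av Q X) V →
  (∀ t, |F t| ≤ 1 / τ) → (∀ t, |V t| ≤ 1 / (τ * Av Q X)) →
  |Av Q (fun t => (τ * X t - τ * Av Q X) * V t * F t)| ≤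
    37 * Av Q X * (ε + Av Q X * b * Real.sqrt τ + δ / (τ * Av Q X ^ 2)) *
      (1 + τ * Av Q (fun t => V t ^ 2) + τ * Av Q (fun t => F t ^ 2))

/-- PACKET T4 (from the average over the elements to the average over all integers).  Uses PER.
Proof.  Notation of T1.  `Av (X F^2) = (1/b) Av_t ∑_{m=1}^b X (t+m) F (t+m)^2`.  As in P1
`|(-1)^m F (t+m) - (-1)^b F (t+b)| ≤ 2 N`, so `F (t+m)^2 ≥ F (t+b)^2 / 2 - 4 N^2`.  With
`N' = Nb X b (t+1) ≤ N`: `∑ ≥ N' F (t+b)^2 / 2 - 4 N^3`.  If `t + 1` is good `N' ≥ ρ b / 2`, so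
`Av (N' F (t+b)^2) ≥ (ρ b / 2) (y - δ/τ^2)`; `Av (N^3) ≤ (2 ρ b)^3 + δ (b+1)^3`.  So
`Av (X F^2) ≥ (ρ/4)(y - δ/τ^2) - 32 ρ^3 b^2 - 4 δ (b+1)^3 / b`; multiply by `4 τ/ρ`; `β^2 ≤ β`, and
`δ/τ`, `16 τ δ (b+1)^3/(b ρ)` are at most `17 δ (b+1)^3/(τ ρ^2)` in total. -/
def StmtT4 : Prop := ∀ (Q : ℕ) (X : ℤ → ℝ), Sq Q X → ∀ (τ : ℝ) (b : ℕ) (ε δ : ℝ) (F : ℤ → ℝ),
  0 < τ → τ ≤ 1 → 0 ≤ ε → ε ≤ 1 / 2 → 0 ≤ δ → 2 ≤ Av Q X * b → Av Q X * b * Real.sqrt τ ≤ 1 →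
  Conc Q X b ε δ → Per Q F → RecF X τ F → (∀ t, |F t| ≤ 1 / τ) →
  τ * Av Q (fun t => F t ^ 2) ≤ 4 * (τ * Av Q (fun t => X t * F t ^ 2) / Av Q X) +
    145 * (ε + Av Q X * b * Real.sqrt τ + δ * (b + 1) ^ 3 / (τ * Av Q X ^ 2))

/-- PACKET ABS (the abstract theorem).  Uses ID, T1, T4.
Proof.  Notation of T1, `e = ε + β + δ (b+1)^3/(τ ρ^2)`, `q = Av (X F)/ρ`, `q₀ = Av (X V)/ρ`.
(2) of ID: `v' = τ v = s v/ρ ≤ (1 + 2 |q₀|)/(2 - s) ≤ 1 + 2 |q₀|`.  (3) of ID: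
`τ Av (X F^2)/ρ ≤ 1 + 2 |q|` (`τ ≤ 1`).  T4: `y' ≤ 4 + 8 |q| + 145 e`.  ID (1), T1:
`|q - q₀| ≤ 37 e (1 + v' + y') ≤ 37 e (151 + 2 |q₀| + 8 |q|) ≤ 37 e (151 + 10 |q₀|) + 296 e |q - q₀|`, and
`296 e ≤ 1/2`, so `|q - q₀| ≤ 74 e (151 + 10 |q₀|) ≤ 12000 e (1 + |q₀|)`. -/
def StmtABS : Prop := ∀ (Q : ℕ) (X : ℤ → ℝ), Sq Q X → ∀ (τ : ℝ) (b : ℕ) (ε δ : ℝ) (F V : ℤ → ℝ),
  0 < τ → τ ≤ 1 → 0 ≤ ε → ε ≤ 1 / 2 → 0 ≤ δ → 2 ≤ Av Q X * b → Av Q X * b * Real.sqrt τ ≤ 1 →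
  Conc Q X b ε δ → Per Q F → Per Q V → RecF X τ F → RecV X (τ * Av Q X) V →
  (∀ t, |F t| ≤ 1 / τ) → (∀ t, |V t| ≤ 1 / (τ * Av Q X)) →
  12000 * (ε + Av Q X * b * Real.sqrt τ + δ * (b + 1) ^ 3 / (τ * Av Q X ^ 2)) ≤ 1 →
  |Av Q (fun t => X t * F t) - Av Q (fun t => X t * V t)| ≤
    12000 * (ε + Av Q X * b * Real.sqrt τ + δ * (b + 1) ^ 3 / (τ * Av Q X ^ 2)) *
      (Av Q X + |Av Q (fun t => X t * V t)|)

/-- PACKET TL (long gaps).  Uses PER.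
Proof.  `k = H / b ≥ 1`, `k b ≥ H/2`.  The positions `1, …, H` contain the `k` blocks
`1 + j b, …, (j+1) b`, `j < k`.  If `t + 1 + j b` is good (`ε = 1/2`) for all `j < k` the number of elements in
`t+1, …, t+H` is at least `k ρ b/2 ≥ ρ H/4`, and `Pc X τ H t ≤ exp (- τ · number)` (`1 - τ x ≤ exp (-τ x)`).
The proportion of the other `t` is at most `k δ ≤ H δ`, and there `Pc ≤ 1`. -/
def StmtTL : Prop := ∀ (Q : ℕ) (X : ℤ → ℝ), Sq Q X → ∀ (τ : ℝ) (b H : ℕ) (δ : ℝ), 0 ≤ τ → τ ≤ 1 →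
  0 ≤ δ → 1 ≤ b → b ≤ H → Conc Q X b (1 / 2) δ →
  Av Q (fun t => Pc X τ H t) ≤ Real.exp (-(τ * Av Q X * H / 4)) + H * δ

/-! ## A. Thinning -/

open Classical in
/-- PACKET TV (thinning by large primes is independent thinning up to a small error).  Uses PER, XSB.
Proof.  Let `I_g f = ∑_{K ⊆ U} g^|K| (1-g)^(|U|-|K|) f K`.  Induction on `P` for all `f`.  Insert a prime `p`: by
CRT the average is the average over `r` modulo `p` of the average over the classes modulo `QS P` of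
`f_r (U_t)`, `U_t = {i ∈ U : XS P (t+i) = 1}`, `f_r K = f (K \ K_r)`, `K_r = {i ∈ U : yI p (r+i) = 1}`.
By the induction hypothesis this is `Av_r I_g f_r = I_g f'` up to the error for `P`, where `|K_r| ≤ 1`
(`XSB.sep`) and every `i ∈ U` is in `K_r` for exactly `2` classes `r`, so with `a = 2/p`, `m = |K|`:
`f' K = (1 - m a) f K + a ∑_{i ∈ K} f (K \ {i})`.  Let `f'' K = ∑_{J ⊆ K} (1-a)^|J| a^(|K|-|J|) f J`; then
`I_g f'' = I_{g (1-a)} f` and `|f' K - f'' K| ≤ 2 m^2 a^2 = 8 m^2/p^2`: the weights differ by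
`|(1-a)^m - (1 - m a)| ≤ m(m-1)a^2/2`, `m a (1 - (1-a)^(m-1)) ≤ m(m-1) a^2` and the total weight of the other
`J` in `f''` is at most `m(m-1)a^2/2`. -/
def StmtTV : Prop := ∀ (P : Finset ℕ) (H : ℕ), (∀ p ∈ P, p.Prime ∧ 5 ≤ p ∧ 3 * H + 1 < p) →
  ∀ U : Finset ℕ, U ⊆ range (H + 1) → ∀ f : Finset ℕ → ℝ, (∀ K, K ⊆ U → |f K| ≤ 1) →
  |Av (QS P) (fun t => f (U.filter (fun i : ℕ => XS P (t + (i : ℤ)) = 1)))
      - ∑ K ∈ U.powerset, gS P ^ K.card * (1 - gS P) ^ (U.card - K.card) * f K| ≤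
    8 * (U.card : ℝ) ^ 2 * ∑ p ∈ P, 1 / (p : ℝ) ^ 2

/-- PACKET ST (one step).  Uses PER, XSB, TV.
Proof.  `Ps z = Ps L ∪ P`, `P = Ps z \ Ps L`, `τ = gS P`.  By CRT the averages over the period `QS (Ps z)` are
averages over `a` modulo `QS (Ps L)` and `t` modulo `QS P`.  For fixed `a` let
`U = {i ≤ H : XS (Ps L) (a+i) = 1}`; the set of the `i ≤ H` in the set for `z` is
`U_t = {i ∈ U : XS P (t+i) = 1}`.  Use TV with `f K = 1` if `0, h ∈ K` and `K` contains no `i` with `0 < i < h`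
(`f K = 0` otherwise): `∑_K τ^|K| (1-τ)^(|U|-|K|) f K = τ^2 (1-τ)^n` if `0, h ∈ U`, `n = #{i ∈ U, 0 < i < h}`
(the elements `> h` sum to `1`), which is `τ^2 X a X (a+h) Pw X τ h a`.  The second part in the same way with
`f K = 1` iff `0 ∈ K` and `K` has no other element.  `|U| ≤ H + 1` and
`∑_{p > L} 1/p^2 ≤ ∑_{n > L} 1/(n(n-1)) = 1/L`. -/
def StmtST : Prop := ∀ (L z H : ℕ), 3 * H + 1 ≤ L → 1 ≤ L → L ≤ z →
  (∀ h ∈ Icc 1 H,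
    |Av (QS (Ps z)) (fun t => XS (Ps z) t * (Pw (XS (Ps z)) 1 h t * XS (Ps z) (t + (h : ℤ))))
      - (Gz z / Gz L) ^ 2 * Av (QS (Ps L)) (fun t => XS (Ps L) t *
          (Pw (XS (Ps L)) (Gz z / Gz L) h t * XS (Ps L) (t + (h : ℤ))))|
      ≤ 8 * ((H : ℝ) + 1) ^ 2 / L) ∧
  |Av (QS (Ps z)) (fun t => XS (Ps z) t * Pc (XS (Ps z)) 1 H t)
      - (Gz z / Gz L) * Av (QS (Ps L)) (fun t => XS (Ps L) t * Pc (XS (Ps L)) (Gz z / Gz L) H t)|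
      ≤ 8 * ((H : ℝ) + 1) ^ 2 / L

/-- PACKET NX (the sign of the next element).  Uses PER.
Proof.  Let `h₀ = nd X t` (it exists by periodicity and `Sq.ne`).  If `h₀ ≤ H` then `Pc X 1 H t = 0`,
`Pw X 1 h t = 0` for `h > h₀`, `X (t+h) = 0` for `h < h₀` and `Pw X 1 h₀ t = 1`, so the sum is `(-1)^h₀`.
If `h₀ > H` all `X (t+h) = 0`, the sum is `0` and `Pc X 1 H t = 1`. -/
def StmtNX : Prop := ∀ (Q : ℕ) (X : ℤ → ℝ), Sq Q X → (∀ t, 1 ≤ nd X t ∧ X (t + nd X t) = 1) ∧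
  Per Q (nx X) ∧ ∀ (t : ℤ) (H : ℕ),
  |nx X t - ∑ h ∈ Icc 1 H, (-1) ^ h * (Pw X 1 h t * X (t + (h : ℤ)))| ≤ Pc X 1 H t

/-- PACKET AM (the main estimate of part A).  Uses XSB, EXP, ST, NX.
Proof.  By NX and linearity the first average is `∑_{h ≤ H} (-1)^h (first average of ST)` up to
`Av (X_z Pc X_z 1 H)`; by EXP `τ^2 Av (X F)` is `∑_{h ≤ H} (-1)^h (second average of ST, with τ^2)` up to
`τ^2 (1/τ) Av (X Pc X τ H)`.  ST: the difference is at most `H · 8 (H+1)^2/L + 8 (H+1)^2/L + 2 τ Av (X Pc X τ H)`. -/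
def StmtAM : Prop := ∀ (L z H : ℕ), 3 * H + 1 ≤ L → 1 ≤ L → L ≤ z → ∀ F : ℤ → ℝ,
  Per (QS (Ps L)) F → RecF (XS (Ps L)) (Gz z / Gz L) F → (∀ t, |F t| ≤ 1 / (Gz z / Gz L)) →
  |Av (QS (Ps z)) (fun t => XS (Ps z) t * nx (XS (Ps z)) t)
      - (Gz z / Gz L) ^ 2 * Av (QS (Ps L)) (fun t => XS (Ps L) t * F t)| ≤
    8 * ((H : ℝ) + 1) ^ 3 / L +
      2 * (Gz z / Gz L) * Av (QS (Ps L)) (fun t => XS (Ps L) t * Pc (XS (Ps L)) (Gz z / Gz L) H t)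

/-! ## C. Concentration -/

/-- PACKET FL (equidistribution of the set for `w` in all blocks of length `≥ w^K`).  Uses XSB.
Proof.  `Pool.Agent.Helper90.Twin.fundamental` with `κ = 2`, `δ = ε/3`, `A = 5`, and the weights
`w p x = yI p (t + x)` (`Adm _ 2` by XSB; `nu = 2`), uniformly in `t`.  The errors: `b exp (-5 Sz w)` is at
most `(ε/3) Gz w b` for large `w` since `(Gz w)⁻¹ ≤ exp (10/3 Sz w)` (`inv_Gz_le`) and `Sz → ∞`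
(`tendsto_Sz`); `w^K ≤ b/w ≤ (ε/3) Gz w b` if `b ≥ w^(K+1)`, by `inv_Gz_le_pow`. -/
def StmtFL : Prop := ∀ ε : ℝ, 0 < ε → ∃ K : ℕ, ∀ᶠ w : ℕ in atTop, ∀ b : ℕ, w ^ K ≤ b → ∀ t : ℤ,
  |Nb (XS (Ps w)) b t - Gz w * b| ≤ ε * (Gz w * b)

/-- PACKET MG (exponential moments).  Uses PER, XSB.
Proof.  Write `M = 2 (b/w + 1)`.  Induction on `P`.  `P = ∅`: equality.  Insert `p`: by CRT the average is the
average over `r` modulo `p` of the average (for `P`) with `U` replaced by `U \ K_r`,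
`K_r = {i ∈ U : yI p (r+i) = 1}`, so it is at most `Av_r exp (κ (|U| - |K_r|))` with
`κ = l g + 8 l^2 M S`, `g = gS P`, `S = ∑_P 1/p`.  `|κ| ≤ 2 |l|` and `|κ| M ≤ 1` by the hypothesis on `l`;
`|K_r| ≤ M` (`XSB.cnt`), `Av_r |K_r| = 2 |U|/p` (`XSB.two`).  `exp (-x) ≤ 1 - x + x^2` for `|x| ≤ 1` gives
`Av_r exp (-κ |K_r|) ≤ 1 - 2 κ |U|/p + κ^2 M 2 |U|/p ≤ exp (-2 κ |U|/p + 8 l^2 M |U|/p)`, so the average is at most
`exp (|U| (κ (1 - 2/p) + 8 l^2 M/p)) ≤ exp (|U| (l g (1 - 2/p) + 8 l^2 M (S + 1/p)))`. -/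
def StmtMG : Prop := ∀ (P : Finset ℕ) (b w : ℕ), 1 ≤ w → (∀ p ∈ P, p.Prime ∧ 5 ≤ p ∧ w < p) →
  ∀ U : Finset ℕ, U ⊆ range b → ∀ l : ℝ,
  8 * |l| * (2 * ((b : ℝ) / w + 1)) * (1 + ∑ p ∈ P, 1 / (p : ℝ)) ≤ 1 →
  Av (QS P) (fun t => Real.exp (l * ∑ i ∈ U, XS P (t + (i : ℤ)))) ≤
    Real.exp (U.card * (l * gS P + 8 * l ^ 2 * (2 * ((b : ℝ) / w + 1)) * ∑ p ∈ P, 1 / (p : ℝ)))

open Classical in
/-- PACKET CH (Chernoff).  Uses MG.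
Proof.  `l = ± ε/(16 M (1+S))`: `8 |l| M (1+S) = ε/2 ≤ 1`.  Markov:
`1_{N - g |U| > ε |U|} ≤ exp (l (N - g |U| - ε |U|))` for `l > 0`, average
`≤ exp (|U| (- l ε + 8 l^2 M (1+S))) = exp (- ε^2 |U|/(32 M (1+S)))`, and in the same way for `l < 0`. -/
def StmtCH : Prop := ∀ (P : Finset ℕ) (b w : ℕ), 1 ≤ w → (∀ p ∈ P, p.Prime ∧ 5 ≤ p ∧ w < p) →
  ∀ U : Finset ℕ, U ⊆ range b → ∀ ε : ℝ, 0 < ε → ε ≤ 1 →
  Av (QS P) (fun t => if ε * U.card < |(∑ i ∈ U, XS P (t + (i : ℤ))) - gS P * U.card| then 1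
    else 0) ≤
    2 * Real.exp (-(ε ^ 2 * U.card / (32 * (2 * ((b : ℝ) / w + 1)) *
      (1 + ∑ p ∈ P, 1 / (p : ℝ)))))

/-- PACKET CC (concentration in short blocks).  Uses PER, XSB, FL, CH.
Proof.  Let `K` be as in FL for `min (ε/4) (1/4)` and `w = ⌊b^(1/K)⌋` (so `w^K ≤ b < (w+1)^K ≤ (2w)^K`; we may
assume `K ≥ 1`), `w ≤ b ≤ L`, `P = Ps L \ Ps w`.  `S = ∑_P 1/p ≤ C` with `C` depending on `A` and `K` only:
`L ≤ b^A ≤ (2w)^(K A) ≤ w^(2 K A)`, and `∑_{p ∈ Ps z \ Ps √z} 1/p ≤ 12`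
(`Pool.Agent.Helper90.Twin.block_sum`), iterated.  `g = gS P ≥ c(A) > 0` (`1 - 2/p ≥ exp (-10/(3p))`, see
`Pool.Agent.Helper90.Twin.inv_Gz_le`).
For `a` modulo `QS (Ps w)` let `U = {i < b : XS (Ps w) (a+i) = 1}`: `||U| - Gz w b| ≤ (ε/4) Gz w b`, and
`Gz L = Gz w g`.  By CRT the proportion is the average over `a` of the proportion of the `t` modulo `QS P` with
`|∑_{i ∈ U} XS P (t+i) - Gz L b| > ε Gz L b`, and then `|∑ - g |U|| > (ε/2) g |U|` (if `ε ≤ 1`; we may assume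
it).  CH: at most `2 exp (- c |U|/(b/w))`, `|U| ≥ Gz w b/2`, so `2 exp (-c' w Gz w) ≤ exp (-b^c)` with
`c = 1/(2K)` for large `b` (`inv_Gz_le_pow`). -/
def StmtCC : Prop := ∀ (A : ℕ) (ε : ℝ), 0 < ε → ∃ c : ℝ, 0 < c ∧ ∃ b₀ : ℕ, ∀ b L : ℕ, b₀ ≤ b →
  b ≤ L → L ≤ b ^ A → Conc (QS (Ps L)) (XS (Ps L)) b ε (Real.exp (-((b : ℝ) ^ c)))

/-! ## D. Assembly -/

/-- PACKET AV (the average `Av (X V)`).  Uses PER, XSB, PCR, EXP.
Proof.  EXP for `V` and `H → ∞`: `V` is bounded (periodic), `(1-s)^H → 0`.  So `Av (X V)` is the limit of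
`∑_{h=1}^H (-1)^h (1-s)^(h-1) Av (X t X (t-h)) = Gz L ∑ (-1)^h (1-s)^(h-1) PL L h`; the series converges
absolutely (`0 ≤ PL ≤ 1`, geometric). -/
def StmtAV : Prop := ∀ (L : ℕ) (s : ℝ) (V : ℤ → ℝ), 0 < s → s < 1 → Per (QS (Ps L)) V →
  RecV (XS (Ps L)) s V →
  Av (QS (Ps L)) (fun t => XS (Ps L) t * V t) =
    Gz L * ∑' h : ℕ, (-1) ^ (h + 1) * ((1 - s) ^ h * PL L (h + 1))

/-- helper22, E1: the pair correlation sum. -/
def StmtE1 : Prop := ∀ (A : ℕ) (ε : ℝ), 4 ≤ A → 0 < ε → ∃ K₀ : ℝ, ∀ (K : ℝ) (L : ℕ), K₀ ≤ K →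
  K ^ 3 ≤ L → (L : ℝ) ≤ K ^ A →
  |(∑' h : ℕ, (-1) ^ (h + 1) * ((1 - 1 / K) ^ h * PL L (h + 1))) + Gz L * GX ⌊K⌋₊ / 2| ≤ ε

/-- helper22, E2: the mean value of `g` and Mertens' constant. -/
def StmtE2 : Prop := ∀ ε : ℝ, 0 < ε → ∃ N : ℝ, ∀ (K : ℝ) (z : ℕ), N ≤ K → N ≤ z →
  |Gz z * GX ⌊K⌋₊ / (Real.log K / Real.log z) ^ 2
    - Real.exp (-2 * Real.eulerMascheroniConstant) / 2| ≤ ε

/-- The core theorem (assembly by helper33; from XSB, EX, ABS, TL, AM, CC, AV, E1, E2). -/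
def StmtCORE : Prop := Tendsto (fun z : ℕ => (Real.log z / Real.log (Real.log z)) ^ 2 * Dz z) atTop
  (𝓝 (-Real.exp (-2 * Real.eulerMascheroniConstant)))

/-- Long gaps for the full sieve (assembly by helper33; from XSB, TL, ST, CC). -/
def StmtLG : Prop := ∀ C₀ : ℕ, 1 ≤ C₀ → ∀ᶠ z : ℕ in atTop, ∀ H : ℕ,
  C₀ * Real.log (Real.log z) / Gz z ≤ H → (H : ℝ) ≤ (Real.log z) ^ 3 →
  Av (QS (Ps z)) (fun t => XS (Ps z) t * Pc (XS (Ps z)) 1 H t) ≤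
    Gz z / (Real.log z) ^ ((C₀ : ℝ) / 8)

end Pool.Agent.Helper33.TB
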