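import Pool.Agent.Helper33.TB.Asm1
import Pool.Agent.Helper76.TB.Iface

/-!
# Project TB: conversion of the core theorem to the window form of helper76
-/

set_option autoImplicit false

open Finset Filter Topology

namespace Pool.Agent.Helper33.TB

open Pool.Agent.Helper90.Twin (Ps Gz Gz_pos Gz_anti mem_Ps Xz)
open Pool.Agent.Helper76.TB (PAH PA HH DD sg l2 phi COREG LONGG GZLG)

/-- telescoping -/
theorem Pw_Pc (X : ℤ → ℝ) (t : ℤ) (H : ℕ) :
    ∑ h ∈ Icc 1 H, Pw X 1 h t * X (t + (h : ℤ)) + Pc X 1 H t = 1 := by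
  induction H with
  | zero => simp [Pc]
  | succ H ih =>
    rw [Finset.sum_Icc_succ_top (by omega)]
    have h1 : Pw X 1 (H + 1) t = Pc X 1 H t := by
      unfold Pw Pc
      congr 1
    have h2 : Pc X 1 (H + 1) t = Pc X 1 H t * (1 - 1 * X (t + ((H + 1 : ℕ) : ℤ))) := by
      unfold Pc
      rw [Finset.prod_Icc_succ_top (by omega)]
    rw [h1, h2]
    linarith

theorem pah_eq (hX : StmtXSB) (z H : ℕ) (c : ℕ → ℝ) : PAH z H c =
    Av (QS (Ps z)) (fun t => XS (Ps z) t *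
      ∑ h ∈ Icc 1 H, c h * (Pw (XS (Ps z)) 1 h t * XS (Ps z) (t + (h : ℤ)))) := by
  have h0 : ∀ t i : ℕ, XS (Ps z) ((t : ℤ) + (i : ℤ)) = Xz z (t + i) := by
    intro t i
    rw [← hX.nat z (t + i)]
    congr 1
  unfold PAH Av QS
  congr 1
  apply Finset.sum_congr rfl
  intro t _
  unfold phi
  simp only []
  rw [← hX.nat z t]
  congr 1
  apply Finset.sum_congr rfl
  intro h _
  rw [h0]
  have h1 : Pw (XS (Ps z)) 1 h (t : ℤ) = ∏ i ∈ Ioo 0 h, (1 - Xz z (t + i)) := by
    unfold Pw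
    apply Finset.prod_congr rfl
    intro i _
    rw [h0, one_mul]
  rw [h1]
  ring

theorem Av_sub' (Q : ℕ) (f g : ℤ → ℝ) : Av Q (fun t => f t - g t) = Av Q f - Av Q g := by
  unfold Av
  rw [Finset.sum_sub_distrib, sub_div]

theorem abs_Av_le (Q : ℕ) (f : ℤ → ℝ) : |Av Q f| ≤ Av Q (fun t => |f t|) := by
  unfold Av
  rw [abs_div, abs_of_nonneg (Nat.cast_nonneg Q : (0 : ℝ) ≤ Q)]
  apply div_le_div_of_nonneg_right _ (Nat.cast_nonneg _)
  exact Finset.abs_sum_le_sum_abs _ _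

theorem Av_le_Av {Q : ℕ} {f g : ℤ → ℝ} (h : ∀ t, f t ≤ g t) : Av Q f ≤ Av Q g := by
  unfold Av
  apply div_le_div_of_nonneg_right _ (Nat.cast_nonneg _)
  exact Finset.sum_le_sum (fun t _ => h t)

/-- the window `HH z` is in the range of `StmtLG` -/
theorem ev_window (hL : StmtLG) (hE2 : StmtE2) : ∀ᶠ z : ℕ in atTop,
    1 ≤ Real.log z ∧ 1 ≤ Real.log (Real.log z) ∧
    Av (QS (Ps z)) (fun t => XS (Ps z) t * Pc (XS (Ps z)) 1 (HH z) t) ≤
      Gz z / (Real.log z) ^ (6 : ℕ) := by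
  obtain ⟨c₁, c₂, hc₁, hc₂, Z, hM⟩ := mertens hE2
  have e0 : ∀ᶠ z : ℕ in atTop, Z ≤ z := tendsto_natCast_atTop_atTop.eventually_ge_atTop Z
  have e1 : ∀ᶠ x : ℝ in atTop, 200 / c₁ * (Real.log x) ^ 1 ≤ x ^ (1 : ℝ) :=
    ev_log_pow _ _ one_pos
  have e2 : ∀ᶠ z : ℕ in atTop, 2 ≤ Real.log z := tendsto_log_nat.eventually_ge_atTop 2
  have e3 : ∀ᶠ z : ℕ in atTop, 1 ≤ Real.log (Real.log z) :=
    (Real.tendsto_log_atTop.comp tendsto_log_nat).eventually_ge_atTop 1
  filter_upwards [hL 100 (by norm_num), e0, tendsto_log_nat.eventually e1, e2, e3]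
    with z h1 h2 h3 h4 h5
  have hg := Gz_pos z
  have hM1 := (hM z h2).1
  have hx0 : 0 < Real.log z := by linarith
  have hHH : HH z = ⌈100 * Real.log (Real.log z) / Gz z⌉₊ := rfl
  have h6 : ((100 : ℕ) : ℝ) * Real.log (Real.log z) / Gz z ≤ (HH z : ℝ) := by
    rw [hHH]
    push_cast
    exact Nat.le_ceil _
  have h7 : (HH z : ℝ) ≤ (Real.log z) ^ 3 := by
    have h8 : (HH z : ℝ) < 100 * Real.log (Real.log z) / Gz z + 1 := by
      rw [hHH]
      exact Nat.ceil_lt_add_one (by positivity)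
    have h9 : 100 * Real.log (Real.log z) / Gz z ≤
        (100 / c₁ * Real.log (Real.log z)) * (Real.log z) ^ 2 := by
      rw [div_le_iff₀ hg]
      calc 100 * Real.log (Real.log z) = 100 / c₁ * Real.log (Real.log z) * c₁ := by field_simp
        _ ≤ 100 / c₁ * Real.log (Real.log z) * (Gz z * Real.log z ^ 2) := by gcongr
        _ = _ := by ring
    rw [Real.rpow_one, pow_one] at h3
    have h10 : 100 / c₁ * Real.log (Real.log z) ≤ Real.log z / 2 := by
      have : 200 / c₁ * Real.log (Real.log z) = 2 * (100 / c₁ * Real.log (Real.log z)) := by ring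
      linarith
    have h11 : (100 / c₁ * Real.log (Real.log z)) * (Real.log z) ^ 2 ≤
        (Real.log z) ^ 3 / 2 := by
      calc (100 / c₁ * Real.log (Real.log z)) * (Real.log z) ^ 2 ≤
          (Real.log z / 2) * (Real.log z) ^ 2 := by gcongr
        _ = _ := by ring
    have h12 : (2 : ℝ) ^ 3 ≤ (Real.log z) ^ 3 := by gcongr
    linarith
  have h8 := h1 (HH z) h6 h7
  refine ⟨by linarith, h5, h8.trans ?_⟩
  have h9 : (Real.log z) ^ (6 : ℕ) ≤ (Real.log z) ^ (((100 : ℕ) : ℝ) / 8) := by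
    rw [← Real.rpow_natCast (Real.log z) 6]
    apply Real.rpow_le_rpow_of_exponent_le (by linarith)
    norm_num
  gcongr

/-- the window form of the core theorem -/
theorem coreg (hX : StmtXSB) (hNX : StmtNX) (hC : StmtCORE) (hL : StmtLG) (hE2 : StmtE2) :
    COREG := by
  have hdiff : Tendsto (fun z : ℕ => (Real.log z / l2 z) ^ 2 * (DD z - Dz z)) atTop (𝓝 0) := by
    have h0 : Tendsto (fun z : ℕ => 1 / Real.log z) atTop (𝓝 0) := by
      simp only [one_div]
      exact tendsto_inv_atTop_zero.comp tendsto_log_nat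
    apply squeeze_zero_norm' _ h0
    filter_upwards [ev_window hL hE2] with z ⟨hz1, hz2, hz3⟩
    have hg := Gz_pos z
    have hx0 : 0 < Real.log z := by linarith
    have hSq := hX.ne (Ps z) (fun p hp => ⟨(mem_Ps.1 hp).2.2, (mem_Ps.1 hp).1⟩)
    obtain ⟨_, _, h3⟩ := hNX (QS (Ps z)) (XS (Ps z)) hSq
    have h4 : |DD z - Dz z| ≤ 1 / (Real.log z) ^ 6 := by
      have h5 : DD z - Dz z = (PAH z (HH z) sg -
          Av (QS (Ps z)) (fun t => XS (Ps z) t * nx (XS (Ps z)) t)) / Gz z := by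
        unfold DD Dz PA
        rw [sub_div]
      rw [h5, abs_div, abs_of_pos hg, div_le_iff₀ hg, pah_eq hX, ← Av_sub']
      refine (abs_Av_le _ _).trans ((Av_le_Av (fun t => ?_)).trans (hz3.trans ?_))
      · have h6 := h3 t (HH z)
        have h7 : 0 ≤ XS (Ps z) t := by
          rcases hX.zo (Ps z) t with h | h <;> simp [h]
        have h8 : XS (Ps z) t * ∑ h ∈ Icc 1 (HH z), sg h *
            (Pw (XS (Ps z)) 1 h t * XS (Ps z) (t + (h : ℤ))) - XS (Ps z) t * nx (XS (Ps z)) t =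
            XS (Ps z) t * (∑ h ∈ Icc 1 (HH z), (-1) ^ h *
            (Pw (XS (Ps z)) 1 h t * XS (Ps z) (t + (h : ℤ))) - nx (XS (Ps z)) t) := by
          unfold sg
          ring
        rw [h8, abs_mul, abs_of_nonneg h7, abs_sub_comm]
        exact mul_le_mul_of_nonneg_left h6 h7
      · rw [div_eq_mul_one_div]
        linarith
    rw [Real.norm_eq_abs, abs_mul, abs_of_nonneg (by positivity)]
    have h5 : (Real.log z / l2 z) ^ 2 ≤ (Real.log z) ^ 2 := by
      have : Real.log z / l2 z ≤ Real.log z := div_le_self hx0.le hz2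
      have h6 : 0 ≤ Real.log z / l2 z := by
        apply div_nonneg hx0.le
        exact le_trans (by norm_num) hz2
      gcongr
    calc (Real.log z / l2 z) ^ 2 * |DD z - Dz z| ≤ (Real.log z) ^ 2 * (1 / (Real.log z) ^ 6) := by
          gcongr
      _ = 1 / (Real.log z) ^ 4 := by field_simp
      _ ≤ 1 / Real.log z := by
          apply one_div_le_one_div_of_le hx0
          calc Real.log z = (Real.log z) ^ 1 := (pow_one _).symm
            _ ≤ (Real.log z) ^ 4 := pow_le_pow_right₀ hz1 (by norm_num)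
  have h := hdiff.add hC
  rw [zero_add] at h
  unfold COREG
  refine h.congr (fun z => ?_)
  simp only [l2]
  ring

/-- the long gaps in the form of helper76 -/
theorem longg (hX : StmtXSB) (hL : StmtLG) (hE2 : StmtE2) : LONGG := by
  unfold LONGG
  filter_upwards [ev_window hL hE2] with z ⟨hz1, hz2, hz3⟩
  have hg := Gz_pos z
  have hg1 : Gz z ≤ 1 := by
    refine (Gz_anti (Nat.zero_le z)).trans ?_
    have : Ps 0 = ∅ := by
      ext p
      simp only [mem_Ps, Finset.notMem_empty, iff_false]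
      omega
    unfold Gz Pool.Agent.Helper90.Twin.GG
    rw [this, Finset.prod_empty]
  have h1 : Gz z - PA z (fun _ => 1) =
      Av (QS (Ps z)) (fun t => XS (Ps z) t * Pc (XS (Ps z)) 1 (HH z) t) := by
    have h2 : Gz z = Av (QS (Ps z)) (XS (Ps z)) := by
      rw [hX.mean _ (fun p hp => ⟨(mem_Ps.1 hp).2.2, (mem_Ps.1 hp).1⟩), hX.dens]
    unfold PA
    rw [pah_eq hX, h2, ← Av_sub']
    congr 1
    funext t
    have h3 := Pw_Pc (XS (Ps z)) t (HH z)
    simp only [one_mul]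
    have h4 : ∑ h ∈ Icc 1 (HH z), Pw (XS (Ps z)) 1 h t * XS (Ps z) (t + (h : ℤ)) =
        1 - Pc (XS (Ps z)) 1 (HH z) t := by linarith
    rw [h4]
    ring
  rw [h1]
  refine hz3.trans ?_
  gcongr

/-- Mertens bounds in the form of helper76 -/
theorem gzlg (hE2 : StmtE2) : GZLG := by
  obtain ⟨c₁, c₂, hc₁, hc₂, Z, hM⟩ := mertens hE2
  refine ⟨c₁, c₂, hc₁, ?_⟩
  have e0 : ∀ᶠ z : ℕ in atTop, Z ≤ z := tendsto_natCast_atTop_atTop.eventually_ge_atTop Z
  filter_upwards [e0] with z hz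
  exact hM z hz

end Pool.Agent.Helper33.TB
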