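import Pool.Agent.Helper33.TB.Asm5

/-!
# Project TB: the core theorem and the long gaps of the full sieve
-/

set_option autoImplicit false

open Finset Filter Topology

namespace Pool.Agent.Helper33.TB

open Pool.Agent.Helper90.Twin (Ps Gz Gz_pos Gz_anti mem_Ps)

theorem main_limit (hE2 : StmtE2) : Tendsto (fun z : ℕ => Rz z * (Gz z * GX ⌊1 / Gz z⌋₊ / 2)) atTop
    (𝓝 (Real.exp (-2 * Real.eulerMascheroniConstant))) := by
  obtain ⟨c₁, c₂, hc₁, hc₂, Z, hM⟩ := mertens hE2
  set γ : ℝ := Real.exp (-2 * Real.eulerMascheroniConstant) / 2 with hγ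
  have hfct := ev_fct hc₁ hc₂ hM (m := 20) (by norm_num)
  -- A
  have hA : Tendsto (fun z : ℕ => Gz z * GX ⌊1 / Gz z⌋₊ / (Real.log (1 / Gz z) / Real.log z) ^ 2)
      atTop (𝓝 γ) := by
    rw [Metric.tendsto_nhds]
    intro ε hε
    obtain ⟨N, hN⟩ := hE2 (ε / 2) (by positivity)
    have e5 : ∀ᶠ z : ℕ in atTop, N ≤ z := tendsto_natCast_atTop_atTop.eventually_ge_atTop N
    filter_upwards [hfct, K_range hc₁ hc₂ N, e5] with z hF hK hz
    obtain ⟨k1, _⟩ := hK hF
    have := hN (1 / Gz z) z k1 hz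
    rw [Real.dist_eq]
    linarith
  have hl : Tendsto (fun z : ℕ => Real.log (Real.log z)) atTop atTop :=
    Real.tendsto_log_atTop.comp tendsto_log_nat
  -- B
  have hB : Tendsto (fun z : ℕ => Real.log (1 / Gz z) / Real.log (Real.log z)) atTop (𝓝 2) := by
    rw [Metric.tendsto_nhds]
    intro ε hε
    have e6 : ∀ᶠ z : ℕ in atTop, (|Real.log c₁| + |Real.log c₂| + 1) / ε ≤ Real.log (Real.log z) :=
      hl.eventually_ge_atTop _
    filter_upwards [hfct, K_range hc₁ hc₂ 0, e6] with z hF hK hz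
    obtain ⟨_, _, _, k4⟩ := hK hF
    have hl1 := hF.l1
    have hl0 : 0 < Real.log (Real.log z) := by linarith
    rw [Real.dist_eq]
    have h1 : Real.log (1 / Gz z) / Real.log (Real.log z) - 2 =
        (Real.log (1 / Gz z) - 2 * Real.log (Real.log z)) / Real.log (Real.log z) := by
      field_simp
    rw [h1, abs_div, abs_of_pos hl0, div_lt_iff₀ hl0]
    rw [div_le_iff₀ hε] at hz
    linarith
  have hAB := (hA.mul (hB.pow 2)).mul_const (1 / 2 : ℝ)
  have hval : γ * 2 ^ 2 * (1 / 2) = Real.exp (-2 * Real.eulerMascheroniConstant) := by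
    rw [hγ]; ring
  rw [hval] at hAB
  refine hAB.congr' ?_
  filter_upwards [hfct, K_range hc₁ hc₂ 0, hl.eventually_ge_atTop (|Real.log c₁| + |Real.log c₂| + 1)]
    with z hF hK hz
  obtain ⟨_, _, _, k4⟩ := hK hF
  have hx2 := hF.x2
  have hl1 := hF.l1
  have hx0 : 0 < Real.log z := by linarith
  have hl0 : 0 < Real.log (Real.log z) := by linarith
  have hK0 : 0 < Real.log (1 / Gz z) := by
    rw [abs_le] at k4
    linarith [k4.1]
  unfold Rz
  field_simp

/-- **The core theorem**, from the packets. -/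
theorem core (hX : StmtXSB) (hEX : StmtEX) (hABS : StmtABS) (hTL : StmtTL) (hAM : StmtAM)
    (hCC : StmtCC) (hAV : StmtAV) (hE1 : StmtE1) (hE2 : StmtE2) : StmtCORE := by
  obtain ⟨C, hC, hcl⟩ := claim hX hEX hABS hTL hAM hCC hAV hE1 hE2
  have h1 : Tendsto (fun z : ℕ => Rz z * Dz z + Rz z * (Gz z * GX ⌊1 / Gz z⌋₊ / 2)) atTop (𝓝 0) := by
    rw [Metric.tendsto_nhds]
    intro ε hε
    have h2 := hcl (min 1 (ε / (2 * C))) (by positivity) (min_le_left _ _)
    filter_upwards [h2] with z hz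
    rw [Real.dist_eq, sub_zero]
    refine lt_of_le_of_lt hz ?_
    calc C * min 1 (ε / (2 * C)) ≤ C * (ε / (2 * C)) := by
          gcongr
          exact min_le_right _ _
      _ = ε / 2 := by field_simp
      _ < ε := by linarith
  have h2 := h1.sub (main_limit hE2)
  rw [zero_sub] at h2
  unfold StmtCORE
  refine h2.congr (fun z => ?_)
  simp only [Rz]
  ring

end Pool.Agent.Helper33.TB
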