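import Pool.Agent.Helper33.TB.Asm4

/-!
# Project TB: the long gaps of the full sieve
-/

set_option autoImplicit false

open Finset Filter Topology

namespace Pool.Agent.Helper33.TB

open Pool.Agent.Helper90.Twin (Ps Gz Gz_pos Gz_anti mem_Ps)

theorem lg (hX : StmtXSB) (hTL : StmtTL) (hST : StmtST) (hCC : StmtCC) (hE2 : StmtE2) : StmtLG := by
  intro C₀ hC₀
  obtain ⟨c₁, c₂, hc₁, hc₂, Z, hM⟩ := mertens hE2
  set m := 20 + C₀ with hm
  obtain ⟨c, hc, htail⟩ := tail_bound (c₁ := c₁) (c₂ := c₂) (m := m) hX hTL hCC (by omega)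
  have hC0pos : (0 : ℝ) < C₀ := by exact_mod_cast hC₀
  have hC01 : (1 : ℝ) ≤ C₀ := by exact_mod_cast hC₀
  have e1 : ∀ᶠ x : ℝ in atTop, 12 * (m : ℝ) ^ 2 / c₁ * (Real.log x) ^ 2 ≤ x ^ ((C₀ : ℝ) / 8) :=
    ev_log_pow _ _ (by positivity)
  have e2 : ∀ᶠ x : ℝ in atTop, 1 * x ^ (C₀ + 3) * Real.exp (-(x ^ c)) ≤ 1 :=
    ev_exp 1 (C₀ + 3) hc one_pos
  have e3 : ∀ᶠ x : ℝ in atTop, max (96 / c₁) c₂ ≤ x := eventually_ge_atTop _
  filter_upwards [ev_fct hc₁ hc₂ hM (m := m) (by omega), htail, tendsto_log_nat.eventually e1,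
    tendsto_log_nat.eventually e2, tendsto_log_nat.eventually e3] with z hF htail a1 a2 a3 H hH1 hH2
  replace htail := htail hF
  have hx2 := hF.x2
  have hl1 := hF.l1
  have hLl := hF.Llow
  have hLz := hF.Lz
  have g1 := hF.glow
  have g2 := hF.gup
  have r1 := hF.rlow
  set x := Real.log z with hx
  set l := Real.log x with hl
  set L := ell z ^ m with hL
  have hx0 : 0 < x := by linarith
  have hl0 : 0 < l := by linarith
  have hρ := Gz_pos L
  have hg := Gz_pos z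
  set g := Gz z with hgdef
  set ρ := Gz L with hρdef
  have hgρ : g ≤ ρ := Gz_anti hLz
  have hx96 : 96 / c₁ ≤ x := (le_max_left _ _).trans a3
  have hxc2 : c₂ ≤ x := (le_max_right _ _).trans a3
  rw [div_le_iff₀ (by positivity)] at g1 r1
  rw [le_div_iff₀ (by positivity)] at g2
  have hgH : C₀ * l ≤ g * H := by
    rw [div_le_iff₀ hg] at hH1
    linarith
  have hHx : x ≤ H := by
    have h1 : g * (x ^ 2) ≤ g * H * x := by
      have h2 : c₂ ≤ g * H * x := by
        have h3 : 1 ≤ g * H := by nlinarith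
        nlinarith
      linarith
    have h2 : g * x * x ≤ g * x * H := by nlinarith
    exact le_of_mul_le_mul_left h2 (by positivity)
  have hT := htail H hHx
  set T := Av (QS (Ps L)) (fun t => XS (Ps L) t * Pc (XS (Ps L)) (g / ρ) H t) with hTdef
  have h3H : 3 * H + 1 ≤ L := by
    have h1 : (3 * (H : ℝ) + 1) ≤ (L : ℝ) := by
      refine le_trans ?_ hLl
      have h2 : (1 : ℝ) ≤ x ^ 3 := one_le_pow₀ (by linarith)
      calc 3 * (H : ℝ) + 1 ≤ 3 * x ^ 3 + x ^ 3 := by linarith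
        _ = 4 * x ^ 3 := by ring
        _ ≤ x ^ 2 * x ^ 3 := by
            apply mul_le_mul_of_nonneg_right _ (by positivity)
            nlinarith
        _ = x ^ 5 := by ring
        _ ≤ x ^ m := pow_le_pow_right₀ (by linarith) (by omega)
    exact_mod_cast h1
  have hST1 := (hST L z H h3H (by omega) hLz).2
  rw [← hTdef] at hST1
  rw [abs_le] at hST1
  have hST2 := hST1.2
  set y : ℝ := x ^ ((C₀ : ℝ) / 8) with hy
  have hy1 : 1 ≤ y := Real.one_le_rpow (by linarith) (by positivity)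
  have hy0 : 0 < y := by linarith
  have hyC : y ≤ x ^ C₀ := by
    rw [hy, ← Real.rpow_natCast x C₀]
    apply Real.rpow_le_rpow_of_exponent_le (by linarith)
    linarith
  have hyy : y * y ≤ x ^ C₀ := by
    rw [hy, ← Real.rpow_add hx0, ← Real.rpow_natCast x C₀]
    apply Real.rpow_le_rpow_of_exponent_le (by linarith)
    linarith
  have hexp : Real.exp (-(g * H / 4)) ≤ 1 / (y * y) := by
    calc Real.exp (-(g * H / 4)) ≤ Real.exp (-(C₀ * l / 4)) := by
          apply Real.exp_le_exp.2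
          linarith
      _ = 1 / (y * y) := by
          rw [hy, ← Real.rpow_add hx0, Real.rpow_def_of_pos hx0, ← hl, one_div, ← Real.exp_neg]
          congr 1
          ring
  have hρinv : 1 / ρ ≤ y / 3 := by
    have h1 : c₁ ≤ 4 * (m : ℝ) ^ 2 * l ^ 2 * ρ := by
      calc c₁ ≤ ρ * (2 * m * l) ^ 2 := r1
        _ = _ := by ring
    rw [div_le_div_iff₀ hρ (by norm_num : (0 : ℝ) < 3)]
    have h2 : 12 * (m : ℝ) ^ 2 * l ^ 2 ≤ y * c₁ := by
      have h3 : 12 * (m : ℝ) ^ 2 / c₁ * l ^ 2 * c₁ = 12 * (m : ℝ) ^ 2 * l ^ 2 := by field_simp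
      rw [← h3]
      gcongr
    have h4 : 3 * c₁ ≤ y * ρ * c₁ := by
      calc 3 * c₁ ≤ 3 * (4 * (m : ℝ) ^ 2 * l ^ 2 * ρ) := by linarith
        _ = (12 * (m : ℝ) ^ 2 * l ^ 2) * ρ := by ring
        _ ≤ (y * c₁) * ρ := by gcongr
        _ = _ := by ring
    have h5 := le_of_mul_le_mul_right h4 hc₁
    linarith
  have hτ : g / ρ ≤ g * (y / 3) := by
    rw [div_eq_mul_one_div]
    gcongr
  have hτ0 : 0 ≤ g / ρ := by positivity
  -- the first term
  have hHexp : (H : ℝ) * Real.exp (-(x ^ c)) ≤ 1 / (y * y) := by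
    rw [le_div_iff₀ (by positivity)]
    calc (H : ℝ) * Real.exp (-(x ^ c)) * (y * y) ≤ x ^ 3 * Real.exp (-(x ^ c)) * x ^ C₀ := by
          gcongr
      _ = 1 * x ^ (C₀ + 3) * Real.exp (-(x ^ c)) := by ring
      _ ≤ 1 := a2
  have hT2 : T ≤ 2 / (y * y) := by
    refine hT.trans ?_
    calc Real.exp (-(g * H / 4)) + H * Real.exp (-(x ^ c)) ≤ 1 / (y * y) + 1 / (y * y) :=
          add_le_add hexp hHexp
      _ = 2 / (y * y) := by ring
  have hmain : g / ρ * T ≤ 2 / 3 * (g / y) := by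
    calc g / ρ * T ≤ g / ρ * (2 / (y * y)) := mul_le_mul_of_nonneg_left hT2 hτ0
      _ ≤ g * (y / 3) * (2 / (y * y)) := by gcongr
      _ = 2 / 3 * (g / y) := by field_simp
  have hlast : 8 * ((H : ℝ) + 1) ^ 2 / (L : ℝ) ≤ 1 / 3 * (g / y) := by
    have h1 : (H : ℝ) + 1 ≤ 2 * x ^ 3 := by
      have h2 : (1 : ℝ) ≤ x ^ 3 := one_le_pow₀ (by linarith)
      linarith
    have hg' : c₁ / x ^ 2 ≤ g := by rwa [div_le_iff₀ (by positivity)]
    have hx12 : x ≤ x ^ 12 := by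
      calc x = x ^ 1 := (pow_one _).symm
        _ ≤ x ^ 12 := pow_le_pow_right₀ (by linarith) (by norm_num)
    have h5 : 96 ≤ c₁ * x ^ 12 := by
      rw [div_le_iff₀ hc₁] at hx96
      nlinarith
    calc 8 * ((H : ℝ) + 1) ^ 2 / (L : ℝ) ≤ 8 * (2 * x ^ 3) ^ 2 / x ^ m := by gcongr
      _ = 32 / (x ^ 14 * x ^ C₀) := by
          rw [hm, pow_add]
          field_simp
          ring
      _ ≤ 1 / 3 * ((c₁ / x ^ 2) / x ^ C₀) := by
          have hxC : 0 < x ^ C₀ := by positivity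
          have h7 : 1 / 3 * ((c₁ / x ^ 2) / x ^ C₀) = c₁ / (3 * (x ^ 2 * x ^ C₀)) := by
            field_simp
          rw [h7, div_le_div_iff₀ (by positivity) (by positivity)]
          calc 32 * (3 * (x ^ 2 * x ^ C₀)) = 96 * (x ^ 2 * x ^ C₀) := by ring
            _ ≤ (c₁ * x ^ 12) * (x ^ 2 * x ^ C₀) := by gcongr
            _ = c₁ * (x ^ 14 * x ^ C₀) := by ring
      _ ≤ 1 / 3 * (g / y) := by gcongr
  have hfin : Av (QS (Ps z)) (fun t => XS (Ps z) t * Pc (XS (Ps z)) 1 H t) ≤ g / y := by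
    have h1 : g / y = 2 / 3 * (g / y) + 1 / 3 * (g / y) := by ring
    rw [h1]
    linarith
  exact hfin

end Pool.Agent.Helper33.TB
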