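import Pool.Agent.Helper29.TB.PER
import Pool.Agent.Helper29.TB.XSB
import Pool.Agent.Helper29.TB.PCR
import Pool.Agent.Helper31.TB.EX
import Pool.Agent.Helper15.TB.ID
import Pool.Agent.Helper83.TB.EXP
import Pool.Agent.Helper57.TB.P1
import Pool.Agent.Helper8.TB.T1
import Pool.Agent.Helper64.TB.T4
import Pool.Agent.Helper57.TB.ABS
import Pool.Agent.Helper6.TB.TL
import Pool.Agent.Helper70.TB.TV
import Pool.Agent.Helper17.TB.ST
import Pool.Agent.Helper69.TB.NX
import Pool.Agent.Helper55.TB.AM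
import Pool.Agent.Helper57.TB.FL
import Pool.Agent.Helper64.TB.MG
import Pool.Agent.Helper57.TB.CH
import Pool.Agent.Helper93.TB.CC
import Pool.Agent.Helper49.TB.AV
import Pool.Agent.Helper33.TB.Core
import Pool.Agent.Helper33.TB.LG
import Pool.Agent.Helper33.TB.Conv

/-!
# Project TB: parts A, B, C, D put together; the only hypotheses left are E1 and E2 (helper22)
-/

set_option autoImplicit false

namespace Pool.Agent.Helper33.TB

theorem sPER : StmtPER := Pool.Agent.Helper29.TB.sPER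
theorem sXSB : StmtXSB := Pool.Agent.Helper29.TB.sXSB
theorem sPCR : StmtPCR := Pool.Agent.Helper29.TB.sPCR
theorem sEX : StmtEX := Pool.Agent.Helper31.TB.ex
theorem sID : StmtID := Pool.Agent.Helper15.TB.idd sPER
theorem sEXP : StmtEXP := Pool.Agent.Helper83.TB.expd
theorem sP1 : StmtP1 := Pool.Agent.Helper57.TB.p1
theorem sT1 : StmtT1 := Pool.Agent.Helper8.TB.t1 sPER sP1
theorem sT4 : StmtT4 := Pool.Agent.Helper64.TB4.t4 sPER
theorem sABS : StmtABS := Pool.Agent.Helper57.TB.absd sID sT1 sT4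
theorem sTL : StmtTL := Pool.Agent.Helper6.TB.tl sPER
theorem sTV : StmtTV := Pool.Agent.Helper70.TB.tv sPER sXSB
theorem sST : StmtST := Pool.Agent.Helper17.TB.st sPER sXSB sTV
theorem sNX : StmtNX := Pool.Agent.Helper69.TB.nxd sPER
theorem sAM : StmtAM := Pool.Agent.Helper55.TB.am sXSB sEXP sST sNX
theorem sFL : StmtFL := Pool.Agent.Helper57.TB.fl sXSB
theorem sMG : StmtMG := Pool.Agent.Helper64.TB.mg sPER sXSB
theorem sCH : StmtCH := Pool.Agent.Helper57.TB.ch sMG
theorem sCC : StmtCC := Pool.Agent.Helper93.TB.cc sPER sXSB sFL sCH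
theorem sAV : StmtAV := Pool.Agent.Helper49.TB.av sPER sXSB sPCR sEXP

/-- core theorem from E1 and E2 -/
theorem core_all (hE1 : StmtE1) (hE2 : StmtE2) : StmtCORE :=
  core sXSB sEX sABS sTL sAM sCC sAV hE1 hE2

/-- long gaps from E2 -/
theorem lg_all (hE2 : StmtE2) : StmtLG := lg sXSB sTL sST sCC hE2

/-- the window form of helper76 -/
theorem coreg_all (hE1 : StmtE1) (hE2 : StmtE2) : Pool.Agent.Helper76.TB.COREG :=
  coreg sXSB sNX (core_all hE1 hE2) (lg_all hE2) hE2

/-- long gaps in the form of helper76 -/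
theorem longg_all (hE2 : StmtE2) : Pool.Agent.Helper76.TB.LONGG :=
  longg sXSB (lg_all hE2) hE2

end Pool.Agent.Helper33.TB
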