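import Pool.Agent.Helper33.TB.Goals

/-!
# Project TB: assembly, analytic preliminaries
-/

set_option autoImplicit false

open Finset Filter Topology

namespace Pool.Agent.Helper33.TB

open Pool.Agent.Helper90.Twin (Ps Gz Gz_pos)

/-! ## Real asymptotics -/

theorem ev_log_pow (C : ℝ) (n : ℕ) {a : ℝ} (ha : 0 < a) :
    ∀ᶠ x : ℝ in atTop, C * (Real.log x) ^ n ≤ x ^ a := by
  have h1 : (fun x : ℝ => (Real.log x) ^ (n : ℝ)) =o[atTop] fun x => x ^ a :=
    isLittleO_log_rpow_rpow_atTop (n : ℝ) ha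
  have h2 := h1.bound (show (0 : ℝ) < 1 / (|C| + 1) by positivity)
  filter_upwards [h2, eventually_ge_atTop (1 : ℝ)] with x hx hx1
  have h3 : 0 ≤ Real.log x := Real.log_nonneg hx1
  rw [Real.rpow_natCast, Real.norm_of_nonneg (by positivity),
    Real.norm_of_nonneg (Real.rpow_nonneg (by linarith) a)] at hx
  have h4 : 0 ≤ x ^ a := Real.rpow_nonneg (by linarith) a
  have h5 : (|C| + 1) * (Real.log x) ^ n ≤ x ^ a := by
    have : (0 : ℝ) < |C| + 1 := by positivity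
    calc (|C| + 1) * (Real.log x) ^ n ≤ (|C| + 1) * (1 / (|C| + 1) * x ^ a) := by gcongr
      _ = x ^ a := by field_simp
  have h6 : C * (Real.log x) ^ n ≤ (|C| + 1) * (Real.log x) ^ n := by
    apply mul_le_mul_of_nonneg_right _ (by positivity)
    linarith [le_abs_self C]
  linarith

theorem ev_exp (C : ℝ) (n : ℕ) {a ε : ℝ} (ha : 0 < a) (hε : 0 < ε) :
    ∀ᶠ x : ℝ in atTop, C * x ^ n * Real.exp (-(x ^ a)) ≤ ε := by
  have h1 : Tendsto (fun y : ℝ => y ^ ((n : ℝ) / a) * Real.exp (-1 * y)) atTop (𝓝 0) :=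
    tendsto_rpow_mul_exp_neg_mul_atTop_nhds_zero ((n : ℝ) / a) 1 one_pos
  have h2 : Tendsto (fun x : ℝ => x ^ a) atTop atTop := tendsto_rpow_atTop ha
  have h3 := (h1.comp h2).const_mul C
  rw [mul_zero] at h3
  filter_upwards [h3.eventually (eventually_le_nhds hε), eventually_gt_atTop (0 : ℝ)] with x hx hx0
  simp only [Function.comp] at hx
  rw [← Real.rpow_mul hx0.le, mul_div_cancel₀ _ ha.ne', Real.rpow_natCast] at hx
  calc C * x ^ n * Real.exp (-(x ^ a)) = C * (x ^ n * Real.exp (-1 * x ^ a)) := by ring_nf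
    _ ≤ ε := hx

theorem tendsto_log_nat : Tendsto (fun z : ℕ => Real.log z) atTop atTop :=
  Real.tendsto_log_atTop.comp tendsto_natCast_atTop_atTop

/-! ## Mertens bounds -/

theorem mertens (h2 : StmtE2) : ∃ c₁ c₂ : ℝ, 0 < c₁ ∧ 0 < c₂ ∧ ∃ Z : ℝ, ∀ z : ℕ, Z ≤ z →
    c₁ ≤ Gz z * (Real.log z) ^ 2 ∧ Gz z * (Real.log z) ^ 2 ≤ c₂ := by
  set c : ℝ := Real.exp (-2 * Real.eulerMascheroniConstant) / 2 with hc
  have hc0 : 0 < c := by positivity
  obtain ⟨N, hN⟩ := h2 (c / 2) (by positivity)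
  set K : ℝ := max N 3 with hK
  have hK3 : 3 ≤ K := le_max_right _ _
  have hKN : N ≤ K := le_max_left _ _
  set G := GX ⌊K⌋₊ with hG
  have hlK : 0 < Real.log K := Real.log_pos (by linarith)
  have key : ∀ z : ℕ, K ≤ z → c / 2 * (Real.log K) ^ 2 ≤ G * (Gz z * (Real.log z) ^ 2) ∧
      G * (Gz z * (Real.log z) ^ 2) ≤ 3 / 2 * c * (Real.log K) ^ 2 := by
    intro z hz
    have h3 := hN K z hKN (hKN.trans hz)
    have hlz : 0 < Real.log z := Real.log_pos (by linarith)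
    rw [abs_le] at h3
    have h4 : Gz z * G / (Real.log K / Real.log z) ^ 2 =
        G * (Gz z * (Real.log z) ^ 2) / (Real.log K) ^ 2 := by
      field_simp
    rw [← hG, h4, ← hc] at h3
    have h5 : 0 < (Real.log K) ^ 2 := by positivity
    obtain ⟨h6, h7⟩ := h3
    constructor
    · have h8 : c / 2 ≤ G * (Gz z * (Real.log z) ^ 2) / (Real.log K) ^ 2 := by linarith
      exact (le_div_iff₀ h5).1 h8
    · have h8 : G * (Gz z * (Real.log z) ^ 2) / (Real.log K) ^ 2 ≤ 3 / 2 * c := by linarith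
      exact (div_le_iff₀ h5).1 h8
  have hGpos : 0 < G := by
    obtain ⟨z, hz⟩ := exists_nat_ge K
    have h3 := (key z hz).1
    have hlz : 0 < Real.log z := Real.log_pos (by linarith)
    have h4 : 0 < Gz z * (Real.log z) ^ 2 := mul_pos (Gz_pos z) (by positivity)
    have h5 : 0 < c / 2 * (Real.log K) ^ 2 := by positivity
    by_contra h6
    push Not at h6
    have := mul_nonpos_of_nonpos_of_nonneg h6 h4.le
    linarith
  refine ⟨c / 2 * (Real.log K) ^ 2 / G, 3 / 2 * c * (Real.log K) ^ 2 / G, by positivity,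
    by positivity, K, ?_⟩
  intro z hz
  obtain ⟨h3, h4⟩ := key z hz
  constructor
  · rw [div_le_iff₀ hGpos]; linarith
  · rw [le_div_iff₀ hGpos]; linarith

/-! ## Parameters -/

/-- `⌈log z⌉` -/
noncomputable def ell (z : ℕ) : ℕ := ⌈Real.log z⌉₊

theorem ell_bounds {z : ℕ} (h : 1 ≤ Real.log z) :
    Real.log z ≤ ell z ∧ (ell z : ℝ) ≤ 2 * Real.log z := by
  refine ⟨Nat.le_ceil _, ?_⟩
  have := Nat.ceil_lt_add_one (by linarith : 0 ≤ Real.log z)
  unfold ell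
  linarith

theorem Lm_bounds (m : ℕ) {z : ℕ} (h : 2 ≤ Real.log z) :
    (Real.log z) ^ m ≤ ((ell z ^ m : ℕ) : ℝ) ∧ ((ell z ^ m : ℕ) : ℝ) ≤ (2 * Real.log z) ^ m ∧
    m * Real.log (Real.log z) ≤ Real.log ((ell z ^ m : ℕ) : ℝ) ∧
    Real.log ((ell z ^ m : ℕ) : ℝ) ≤ 2 * m * Real.log (Real.log z) := by
  obtain ⟨h1, h2⟩ := ell_bounds (by linarith : 1 ≤ Real.log z)
  have h0 : 0 < Real.log z := by linarith
  have he : (0 : ℝ) < ell z := by linarith
  refine ⟨?_, ?_, ?_, ?_⟩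
  · push_cast
    gcongr
  · push_cast
    gcongr
  · push_cast
    rw [Real.log_pow]
    gcongr
  · push_cast
    rw [Real.log_pow]
    have h3 : Real.log (ell z) ≤ 2 * Real.log (Real.log z) := by
      calc Real.log (ell z) ≤ Real.log (2 * Real.log z) := Real.log_le_log he h2
        _ ≤ Real.log (Real.log z * Real.log z) := by
            apply Real.log_le_log (by positivity)
            nlinarith
        _ = 2 * Real.log (Real.log z) := by
            rw [Real.log_mul h0.ne' h0.ne']; ring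
    calc (m : ℝ) * Real.log (ell z) ≤ m * (2 * Real.log (Real.log z)) := by gcongr
      _ = 2 * m * Real.log (Real.log z) := by ring

/-- the facts about the parameters of level `m` -/
structure Fct (c₁ c₂ : ℝ) (m z : ℕ) : Prop where
  x2 : 2 ≤ Real.log z
  l1 : 1 ≤ Real.log (Real.log z)
  Llow : (Real.log z) ^ m ≤ ((ell z ^ m : ℕ) : ℝ)
  Lup : ((ell z ^ m : ℕ) : ℝ) ≤ (2 * Real.log z) ^ m
  Lz : ell z ^ m ≤ z
  glow : c₁ / (Real.log z) ^ 2 ≤ Gz z
  gup : Gz z ≤ c₂ / (Real.log z) ^ 2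
  rlow : c₁ / (2 * m * Real.log (Real.log z)) ^ 2 ≤ Gz (ell z ^ m)
  rup : Gz (ell z ^ m) ≤ c₂ / (m * Real.log (Real.log z)) ^ 2

theorem ev_pow_le_exp (m : ℕ) : ∀ᶠ x : ℝ in atTop, (2 * x) ^ m ≤ Real.exp x := by
  have h1 := ev_exp (2 ^ m) m one_pos one_pos
  filter_upwards [h1, eventually_ge_atTop (1 : ℝ)] with x hx hx1
  rw [Real.rpow_one, Real.exp_neg, ← mul_pow, ← div_eq_mul_inv,
    div_le_one (Real.exp_pos _)] at hx
  exact hx

theorem ev_fct {c₁ c₂ : ℝ} (hc₁ : 0 < c₁) (hc₂ : 0 < c₂) {Z : ℝ}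
    (hM : ∀ z : ℕ, Z ≤ z → c₁ ≤ Gz z * (Real.log z) ^ 2 ∧ Gz z * (Real.log z) ^ 2 ≤ c₂)
    {m : ℕ} (hm : 1 ≤ m) : ∀ᶠ z : ℕ in atTop, Fct c₁ c₂ m z := by
  have e1 : ∀ᶠ z : ℕ in atTop, 2 ≤ Real.log z := tendsto_log_nat.eventually_ge_atTop 2
  have e2 : ∀ᶠ z : ℕ in atTop, 1 ≤ Real.log (Real.log z) :=
    (Real.tendsto_log_atTop.comp tendsto_log_nat).eventually_ge_atTop 1
  have e3 : ∀ᶠ z : ℕ in atTop, (2 * Real.log z) ^ m ≤ Real.exp (Real.log z) :=
    tendsto_log_nat.eventually (ev_pow_le_exp m)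
  have e4 : ∀ᶠ z : ℕ in atTop, Z ≤ z := tendsto_natCast_atTop_atTop.eventually_ge_atTop Z
  have e5 : ∀ᶠ z : ℕ in atTop, Z ≤ (Real.log z) := tendsto_log_nat.eventually_ge_atTop Z
  filter_upwards [e1, e2, e3, e4, e5, eventually_ge_atTop 1] with z h1 h2 h3 h4 h5 h6
  obtain ⟨b1, b2, b3, b4⟩ := Lm_bounds m h1
  have hz0 : (0 : ℝ) < z := by exact_mod_cast h6
  rw [Real.exp_log hz0] at h3
  have hx0 : 0 < Real.log z := by linarith
  have hl0 : 0 < Real.log (Real.log z) := by linarith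
  have hm0 : (0 : ℝ) < m := by exact_mod_cast hm
  have hZL : Z ≤ ((ell z ^ m : ℕ) : ℝ) := by
    refine h5.trans (le_trans ?_ b1)
    calc Real.log z = (Real.log z) ^ 1 := (pow_one _).symm
      _ ≤ (Real.log z) ^ m := pow_le_pow_right₀ (by linarith) hm
  have hM1 := hM z h4
  have hM2 := hM _ hZL
  have hlL : 0 < Real.log ((ell z ^ m : ℕ) : ℝ) := lt_of_lt_of_le (by positivity) b3
  refine ⟨h1, h2, b1, b2, ?_, ?_, ?_, ?_, ?_⟩
  · exact_mod_cast b2.trans h3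
  · rw [div_le_iff₀ (by positivity)]; exact hM1.1
  · rw [le_div_iff₀ (by positivity)]; exact hM1.2
  · rw [div_le_iff₀ (by positivity)]
    calc c₁ ≤ Gz (ell z ^ m) * (Real.log ((ell z ^ m : ℕ) : ℝ)) ^ 2 := hM2.1
      _ ≤ _ := by
        have := (Gz_pos (ell z ^ m)).le
        gcongr
  · rw [le_div_iff₀ (by positivity)]
    calc _ ≤ Gz (ell z ^ m) * (Real.log ((ell z ^ m : ℕ) : ℝ)) ^ 2 := by
          have := (Gz_pos (ell z ^ m)).le
          gcongr
      _ ≤ c₂ := hM2.2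

end Pool.Agent.Helper33.TB
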