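import Pool.Agent.Helper33.TB.Asm1

/-!
# Project TB: assembly, long gaps at level `L`
-/

set_option autoImplicit false

open Finset Filter Topology

namespace Pool.Agent.Helper33.TB

open Pool.Agent.Helper90.Twin (Ps Gz Gz_pos Gz_anti mem_Ps)

theorem Ps_prime5 (L : ℕ) : ∀ p ∈ Ps L, p.Prime ∧ 5 ≤ p := fun _ hp =>
  ⟨(mem_Ps.1 hp).2.2, (mem_Ps.1 hp).1⟩

theorem AvX (hX : StmtXSB) (L : ℕ) : Av (QS (Ps L)) (XS (Ps L)) = Gz L := by
  rw [hX.mean _ (Ps_prime5 L), hX.dens]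

theorem Av_mono {Q : ℕ} {f g : ℤ → ℝ} (h : ∀ t, f t ≤ g t) : Av Q f ≤ Av Q g := by
  unfold Av
  apply div_le_div_of_nonneg_right _ (Nat.cast_nonneg _)
  exact Finset.sum_le_sum (fun t _ => h t)

theorem XS_nonneg (hX : StmtXSB) (s : Finset ℕ) (t : ℤ) : 0 ≤ XS s t := by
  rcases hX.zo s t with h | h <;> simp [h]

theorem XS_le_one (hX : StmtXSB) (s : Finset ℕ) (t : ℤ) : XS s t ≤ 1 := by
  rcases hX.zo s t with h | h <;> simp [h]

theorem Pc_nonneg {X : ℤ → ℝ} (h0 : ∀ t, 0 ≤ X t) (h1 : ∀ t, X t ≤ 1) {τ : ℝ}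
    (hτ1 : τ ≤ 1) (H : ℕ) (t : ℤ) : 0 ≤ Pc X τ H t := by
  unfold Pc
  apply Finset.prod_nonneg
  intro i _
  have := h0 (t + i)
  have := h1 (t + i)
  nlinarith [mul_le_one₀ hτ1 (h0 (t + i)) (h1 (t + i))]

theorem ceil_sqrt_facts {x : ℝ} (hx : 4 ≤ x) :
    Real.sqrt x ≤ (⌈Real.sqrt x⌉₊ : ℝ) ∧ (⌈Real.sqrt x⌉₊ : ℝ) ≤ x ∧ 1 ≤ ⌈Real.sqrt x⌉₊ := by
  have h1 : 2 ≤ Real.sqrt x := by
    rw [show (2 : ℝ) = Real.sqrt 4 by
      rw [show (4 : ℝ) = 2 ^ 2 by norm_num, Real.sqrt_sq (by norm_num)]]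
    exact Real.sqrt_le_sqrt hx
  have h2 : Real.sqrt x * Real.sqrt x = x := Real.mul_self_sqrt (by linarith)
  have h3 := Nat.ceil_lt_add_one (by linarith : 0 ≤ Real.sqrt x)
  refine ⟨Nat.le_ceil _, ?_, ?_⟩
  · nlinarith
  · rw [Nat.one_le_ceil_iff]; linarith

theorem exp_rpow_le {x b c : ℝ} (hx : 0 ≤ x) (hb : Real.sqrt x ≤ b) (hc : 0 < c) :
    Real.exp (-(b ^ c)) ≤ Real.exp (-(x ^ (c / 2))) := by
  apply Real.exp_le_exp.2
  apply neg_le_neg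
  have h1 : x ^ (c / 2) = (Real.sqrt x) ^ c := by
    rw [Real.sqrt_eq_rpow, ← Real.rpow_mul hx]
    congr 1
    ring
  rw [h1]
  exact Real.rpow_le_rpow (Real.sqrt_nonneg _) hb hc.le

/-- long gaps at level `L` -/
theorem tail_bound (hX : StmtXSB) (hTL : StmtTL) (hCC : StmtCC) {c₁ c₂ : ℝ} {m : ℕ} (hm : 1 ≤ m) :
    ∃ c : ℝ, 0 < c ∧ ∀ᶠ z : ℕ in atTop, Fct c₁ c₂ m z → ∀ H : ℕ, Real.log z ≤ H →
      Av (QS (Ps (ell z ^ m))) (fun t => XS (Ps (ell z ^ m)) t *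
        Pc (XS (Ps (ell z ^ m))) (Gz z / Gz (ell z ^ m)) H t) ≤
      Real.exp (-(Gz z * H / 4)) + H * Real.exp (-((Real.log z) ^ c)) := by
  obtain ⟨c, hc, b₀, hb₀⟩ := hCC (4 * m) (1 / 2) (by norm_num)
  refine ⟨c / 2, by positivity, ?_⟩
  have e1 : ∀ᶠ z : ℕ in atTop, 4 ≤ Real.log z := tendsto_log_nat.eventually_ge_atTop 4
  have e2 : ∀ᶠ z : ℕ in atTop, (b₀ : ℝ) ^ 2 ≤ Real.log z :=
    tendsto_log_nat.eventually_ge_atTop _
  filter_upwards [e1, e2] with z h4 hb hF H hH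
  set L := ell z ^ m with hL
  set x := Real.log z with hx
  set b := ⌈Real.sqrt x⌉₊ with hbdef
  obtain ⟨q1, q2, q3⟩ := ceil_sqrt_facts h4
  rw [← hbdef] at q1 q2 q3
  have hx0 : 0 < x := by linarith
  have hbb : b₀ ≤ b := by
    have : (b₀ : ℝ) ≤ Real.sqrt x := Real.le_sqrt_of_sq_le hb
    exact_mod_cast this.trans q1
  have hxL : x ≤ L := by
    calc x = x ^ 1 := (pow_one _).symm
      _ ≤ x ^ m := pow_le_pow_right₀ (by linarith) hm
      _ ≤ L := hF.Llow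
  have hbL : b ≤ L := by exact_mod_cast q2.trans hxL
  have hLb : L ≤ b ^ (4 * m) := by
    have h1 : (L : ℝ) ≤ ((b ^ (4 * m) : ℕ) : ℝ) := by
      calc (L : ℝ) ≤ (2 * x) ^ m := hF.Lup
        _ ≤ (x ^ 2) ^ m := by
            gcongr
            nlinarith
        _ = ((Real.sqrt x) ^ 4) ^ m := by
            congr 1
            rw [show (4 : ℕ) = 2 * 2 by norm_num, pow_mul, Real.sq_sqrt hx0.le]
        _ ≤ ((b : ℝ) ^ 4) ^ m := by gcongr
        _ = ((b ^ (4 * m) : ℕ) : ℝ) := by rw [← pow_mul]; push_cast; rfl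
    exact_mod_cast h1
  have hconc := hb₀ b L hbb hbL hLb
  have hSq := hX.ne (Ps L) (Ps_prime5 L)
  have hρ := Gz_pos L
  have hg := Gz_pos z
  have hτ0 : 0 ≤ Gz z / Gz L := by positivity
  have hτ1 : Gz z / Gz L ≤ 1 := by
    rw [div_le_one hρ]
    exact Gz_anti hF.Lz
  have hbH : b ≤ H := by exact_mod_cast q2.trans hH
  have h5 := hTL (QS (Ps L)) (XS (Ps L)) hSq (Gz z / Gz L) b H (Real.exp (-((b : ℝ) ^ c))) hτ0 hτ1
    (Real.exp_pos _).le q3 hbH hconc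
  rw [AvX hX] at h5
  have h6 : Gz z / Gz L * Gz L = Gz z := by field_simp
  rw [h6] at h5
  refine le_trans (Av_mono (fun t => ?_)) (h5.trans ?_)
  · have h7 := Pc_nonneg (fun t => XS_nonneg hX (Ps L) t) (fun t => XS_le_one hX (Ps L) t) hτ1 H t
    calc XS (Ps L) t * Pc (XS (Ps L)) (Gz z / Gz L) H t
        ≤ 1 * Pc (XS (Ps L)) (Gz z / Gz L) H t :=
          mul_le_mul_of_nonneg_right (XS_le_one hX (Ps L) t) h7
      _ = _ := one_mul _
  · have h8 := exp_rpow_le hx0.le q1 hc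
    have h9 : (0 : ℝ) ≤ H := Nat.cast_nonneg H
    have h10 := mul_le_mul_of_nonneg_left h8 h9
    linarith

/-- chain of the approximations -/
theorem chain {g ρ τ D AF AV S G EA e ε' : ℝ} (hg : 0 < g) (hρ : 0 < ρ) (hτ : 0 < τ)
    (hgτ : g = τ * ρ) (h1 : |g * D - τ ^ 2 * AF| ≤ EA) (h2 : |AF - AV| ≤ e * (ρ + |AV|))
    (h3 : AV = ρ * S) (h4 : |S + ρ * G / 2| ≤ ε') (he : 0 ≤ e) (hG : 0 ≤ G) :
    |D + g * G / 2| ≤ EA / g + τ * (e * (1 + ρ * G / 2 + ε') + ε') := by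
  have hS : |S| ≤ ρ * G / 2 + ε' := by
    have h5 : S = (S + ρ * G / 2) - ρ * G / 2 := by ring
    calc |S| = |(S + ρ * G / 2) - ρ * G / 2| := by rw [← h5]
      _ ≤ |S + ρ * G / 2| + |ρ * G / 2| := abs_sub _ _
      _ ≤ ε' + ρ * G / 2 := by
          rw [abs_of_nonneg (by positivity : 0 ≤ ρ * G / 2)]
          linarith
      _ = _ := by ring
  have h6 : g * (D + g * G / 2) =
      (g * D - τ ^ 2 * AF) + τ ^ 2 * (AF - AV) + g * τ * (S + ρ * G / 2) := by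
    rw [h3, hgτ]; ring
  have h7 : |g * (D + g * G / 2)| ≤ EA + g * τ * (e * (1 + |S|)) + g * τ * ε' := by
    rw [h6]
    refine (abs_add_le _ _).trans (add_le_add ((abs_add_le _ _).trans (add_le_add h1 ?_)) ?_)
    · rw [abs_mul, abs_of_nonneg (by positivity : 0 ≤ τ ^ 2)]
      calc τ ^ 2 * |AF - AV| ≤ τ ^ 2 * (e * (ρ + |AV|)) := by gcongr
        _ = g * τ * (e * (1 + |S|)) := by
            rw [h3, abs_mul, abs_of_pos hρ, hgτ]; ring
    · rw [abs_mul, abs_of_nonneg (by positivity : 0 ≤ g * τ)]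
      gcongr
  rw [abs_mul, abs_of_pos hg] at h7
  have h8 : |D + g * G / 2| ≤ (EA + g * τ * (e * (1 + |S|)) + g * τ * ε') / g := by
    rw [le_div_iff₀ hg]; linarith
  refine h8.trans ?_
  have h9 : (EA + g * τ * (e * (1 + |S|)) + g * τ * ε') / g = EA / g + τ * (e * (1 + |S|) + ε') := by
    field_simp
    ring
  rw [h9]
  have h10 : e * (1 + |S|) ≤ e * (1 + ρ * G / 2 + ε') := by
    apply mul_le_mul_of_nonneg_left _ he
    linarith
  have h11 : τ * (e * (1 + |S|) + ε') ≤ τ * (e * (1 + ρ * G / 2 + ε') + ε') := by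
    apply mul_le_mul_of_nonneg_left _ hτ.le
    linarith
  linarith

end Pool.Agent.Helper33.TB
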