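import Pool.Agent.Helper33.TB.Asm2

/-!
# Project TB: assembly, the error terms at level `L = ⌈log z⌉^20`
-/

set_option autoImplicit false

open Finset Filter Topology

namespace Pool.Agent.Helper33.TB

open Pool.Agent.Helper90.Twin (Ps Gz Gz_pos Gz_anti mem_Ps)

/-- `R z = (log z / log log z)^2` -/
noncomputable def Rz (z : ℕ) : ℝ := (Real.log z / Real.log (Real.log z)) ^ 2

/-- consequences of `Fct` for `m = 20` -/
theorem tau_bounds {c₁ c₂ : ℝ} (hc₁ : 0 < c₁) (hc₂ : 0 < c₂) {z : ℕ} (hF : Fct c₁ c₂ 20 z) :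
    Rz z * (Gz z / Gz (ell z ^ 20)) ≤ 1600 * (c₂ / c₁) ∧
    400 * (c₁ / c₂) ≤ Rz z * (Gz z / Gz (ell z ^ 20)) := by
  set x := Real.log z with hx
  set l := Real.log x with hl
  have hx0 : 0 < x := by linarith [hF.x2]
  have hl0 : 0 < l := by linarith [hF.l1]
  have hρ := Gz_pos (ell z ^ 20)
  have hg := Gz_pos z
  have r1 := hF.rlow
  have r2 := hF.rup
  have g1 := hF.glow
  have g2 := hF.gup
  rw [← hx, ← hl] at r1 r2
  rw [← hx] at g1 g2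
  have hR : Rz z = x ^ 2 / l ^ 2 := by
    unfold Rz; rw [← hx, ← hl, div_pow]
  have r1' : c₁ ≤ Gz (ell z ^ 20) * (40 * l) ^ 2 := by
    rw [div_le_iff₀ (by positivity)] at r1
    push_cast at r1
    nlinarith [r1]
  have r2' : Gz (ell z ^ 20) * (20 * l) ^ 2 ≤ c₂ := by
    rw [le_div_iff₀ (by positivity)] at r2
    push_cast at r2
    nlinarith [r2]
  have g1' : c₁ ≤ Gz z * x ^ 2 := by rwa [div_le_iff₀ (by positivity)] at g1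
  have g2' : Gz z * x ^ 2 ≤ c₂ := by rwa [le_div_iff₀ (by positivity)] at g2
  rw [hR]
  constructor
  · have h1 : x ^ 2 / l ^ 2 * (Gz z / Gz (ell z ^ 20)) = (Gz z * x ^ 2) / (Gz (ell z ^ 20) * l ^ 2) := by
      field_simp
    rw [h1, div_le_iff₀ (by positivity)]
    have h2 : c₁ ≤ 1600 * (Gz (ell z ^ 20) * l ^ 2) := by nlinarith [r1']
    calc Gz z * x ^ 2 ≤ c₂ := g2'
      _ = c₂ / c₁ * c₁ := by field_simp
      _ ≤ c₂ / c₁ * (1600 * (Gz (ell z ^ 20) * l ^ 2)) := by gcongr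
      _ = _ := by ring
  · have h1 : x ^ 2 / l ^ 2 * (Gz z / Gz (ell z ^ 20)) = (Gz z * x ^ 2) / (Gz (ell z ^ 20) * l ^ 2) := by
      field_simp
    rw [h1, le_div_iff₀ (by positivity)]
    have h2 : 400 * (Gz (ell z ^ 20) * l ^ 2) ≤ c₂ := by nlinarith [r2']
    calc 400 * (c₁ / c₂) * (Gz (ell z ^ 20) * l ^ 2) = c₁ / c₂ * (400 * (Gz (ell z ^ 20) * l ^ 2)) := by ring
      _ ≤ c₁ / c₂ * c₂ := by gcongr
      _ = c₁ := by field_simp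
      _ ≤ Gz z * x ^ 2 := g1'

/-- the error of part A -/
theorem EA_bound {c₁ c₂ : ℝ} (hc₁ : 0 < c₁) {c : ℝ} (hc : 0 < c) {ε : ℝ} (hε : 0 < ε) :
    ∀ᶠ z : ℕ in atTop, Fct c₁ c₂ 20 z → ∀ T : ℝ, 0 ≤ T →
      T ≤ Real.exp (-(Gz z * ((ell z ^ 3 : ℕ) : ℝ) / 4)) +
        ((ell z ^ 3 : ℕ) : ℝ) * Real.exp (-((Real.log z) ^ c)) →
      Rz z * ((8 * (((ell z ^ 3 : ℕ) : ℝ) + 1) ^ 3 / ((ell z ^ 20 : ℕ) : ℝ) +
        2 * (Gz z / Gz (ell z ^ 20)) * T) / Gz z) ≤ ε := by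
  have e1 : ∀ᶠ x : ℝ in atTop, 192 / (c₁ * ε) ≤ x := eventually_ge_atTop _
  have e2 : ∀ᶠ x : ℝ in atTop, 2 / c₁ * x ^ 4 * Real.exp (-(x ^ (1 / 2 : ℝ))) ≤ ε / 3 :=
    ev_exp (2 / c₁) 4 (by norm_num) (by positivity)
  have e3 : ∀ᶠ x : ℝ in atTop, 16 / c₁ * x ^ 7 * Real.exp (-(x ^ c)) ≤ ε / 3 :=
    ev_exp (16 / c₁) 7 hc (by positivity)
  have e4 : ∀ᶠ x : ℝ in atTop, (4 / c₁) ^ 2 ≤ x := eventually_ge_atTop _
  filter_upwards [tendsto_log_nat.eventually e1, tendsto_log_nat.eventually e2,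
    tendsto_log_nat.eventually e3, tendsto_log_nat.eventually e4] with z a1 a2 a3 a4 hF T hT0 hT
  set x := Real.log z with hx
  set l := Real.log x with hl
  have hx2 := hF.x2
  rw [← hx] at hx2
  have hx0 : 0 < x := by linarith
  have hl1 := hF.l1
  rw [← hx, ← hl] at hl1
  have hρ := Gz_pos (ell z ^ 20)
  have hg := Gz_pos z
  have g1 := hF.glow
  rw [← hx] at g1
  obtain ⟨el1, el2⟩ := ell_bounds (by linarith : 1 ≤ Real.log z)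
  rw [← hx] at el1 el2
  have he0 : (0 : ℝ) < ell z := by linarith
  have he1 : (1 : ℝ) ≤ ell z := by linarith
  have hR : Rz z ≤ x ^ 2 := by
    unfold Rz
    rw [← hx, ← hl]
    have : x / l ≤ x := div_le_self hx0.le hl1
    gcongr
  have hR0 : 0 ≤ Rz z := by unfold Rz; positivity
  have hτ1 : Gz z / Gz (ell z ^ 20) ≤ 1 := by
    rw [div_le_one hρ]
    exact Gz_anti hF.Lz
  have hRg : Rz z / Gz z ≤ x ^ 4 / c₁ := by
    calc Rz z / Gz z ≤ x ^ 2 / (c₁ / x ^ 2) := by gcongr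
      _ = x ^ 4 / c₁ := by field_simp
  -- first term
  have t1 : 8 * (((ell z ^ 3 : ℕ) : ℝ) + 1) ^ 3 / ((ell z ^ 20 : ℕ) : ℝ) ≤ 64 / x ^ 11 := by
    have h1 : ((ell z ^ 3 : ℕ) : ℝ) + 1 ≤ 2 * (ell z : ℝ) ^ 3 := by
      push_cast
      have : (1 : ℝ) ≤ (ell z : ℝ) ^ 3 := one_le_pow₀ he1
      linarith
    calc 8 * (((ell z ^ 3 : ℕ) : ℝ) + 1) ^ 3 / ((ell z ^ 20 : ℕ) : ℝ)
        ≤ 8 * (2 * (ell z : ℝ) ^ 3) ^ 3 / ((ell z ^ 20 : ℕ) : ℝ) := by gcongr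
      _ = 64 / (ell z : ℝ) ^ 11 := by
          push_cast
          field_simp
          ring
      _ ≤ 64 / x ^ 11 := by gcongr
  have hH : ((ell z ^ 3 : ℕ) : ℝ) ≤ 8 * x ^ 3 := by
    push_cast
    calc (ell z : ℝ) ^ 3 ≤ (2 * x) ^ 3 := by gcongr
      _ = 8 * x ^ 3 := by ring
  have hH' : x ^ 3 ≤ ((ell z ^ 3 : ℕ) : ℝ) := by
    push_cast
    gcongr
  have hexp : Real.exp (-(Gz z * ((ell z ^ 3 : ℕ) : ℝ) / 4)) ≤ Real.exp (-(x ^ (1 / 2 : ℝ))) := by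
    apply Real.exp_le_exp.2
    apply neg_le_neg
    have h1 : c₁ * x ≤ Gz z * ((ell z ^ 3 : ℕ) : ℝ) := by
      calc c₁ * x = c₁ / x ^ 2 * x ^ 3 := by field_simp
        _ ≤ _ := by gcongr
    have h2 : x ^ (1 / 2 : ℝ) = Real.sqrt x := (Real.sqrt_eq_rpow x).symm
    rw [h2]
    have h3 : 4 / c₁ ≤ Real.sqrt x := Real.le_sqrt_of_sq_le a4
    have h4 : Real.sqrt x * Real.sqrt x = x := Real.mul_self_sqrt hx0.le
    have h5 : 4 ≤ c₁ * Real.sqrt x := by rwa [div_le_iff₀' hc₁] at h3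
    nlinarith [Real.sqrt_nonneg x]
  have hTb : T ≤ Real.exp (-(x ^ (1 / 2 : ℝ))) + 8 * x ^ 3 * Real.exp (-(x ^ c)) := by
    refine hT.trans (add_le_add hexp ?_)
    gcongr
  have t2 : 2 * (Gz z / Gz (ell z ^ 20)) * T ≤
      2 * (Real.exp (-(x ^ (1 / 2 : ℝ))) + 8 * x ^ 3 * Real.exp (-(x ^ c))) := by
    calc 2 * (Gz z / Gz (ell z ^ 20)) * T ≤ 2 * 1 * T := by gcongr
      _ ≤ _ := by linarith
  have hE0 : 0 ≤ 8 * (((ell z ^ 3 : ℕ) : ℝ) + 1) ^ 3 / ((ell z ^ 20 : ℕ) : ℝ) +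
        2 * (Gz z / Gz (ell z ^ 20)) * T := by positivity
  have hsum : Rz z * ((8 * (((ell z ^ 3 : ℕ) : ℝ) + 1) ^ 3 / ((ell z ^ 20 : ℕ) : ℝ) +
        2 * (Gz z / Gz (ell z ^ 20)) * T) / Gz z) ≤
      x ^ 4 / c₁ * (64 / x ^ 11 +
        2 * (Real.exp (-(x ^ (1 / 2 : ℝ))) + 8 * x ^ 3 * Real.exp (-(x ^ c)))) := by
    have h1 : Rz z * ((8 * (((ell z ^ 3 : ℕ) : ℝ) + 1) ^ 3 / ((ell z ^ 20 : ℕ) : ℝ) +
        2 * (Gz z / Gz (ell z ^ 20)) * T) / Gz z) = Rz z / Gz z *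
        (8 * (((ell z ^ 3 : ℕ) : ℝ) + 1) ^ 3 / ((ell z ^ 20 : ℕ) : ℝ) +
        2 * (Gz z / Gz (ell z ^ 20)) * T) := by ring
    rw [h1]
    apply mul_le_mul hRg (add_le_add t1 t2) hE0 (by positivity)
  refine hsum.trans ?_
  have f1 : x ^ 4 / c₁ * (64 / x ^ 11) ≤ ε / 3 := by
    have h1 : x ^ 4 / c₁ * (64 / x ^ 11) = 64 / (c₁ * x ^ 7) := by field_simp
    rw [h1, div_le_iff₀ (by positivity)]
    have h2 : x ≤ x ^ 7 := by
      calc x = x ^ 1 := (pow_one _).symm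
        _ ≤ x ^ 7 := pow_le_pow_right₀ (by linarith) (by norm_num)
    have h3 : 192 ≤ c₁ * ε * x := by
      rw [div_le_iff₀ (by positivity)] at a1
      linarith
    have h4 : c₁ * ε * x ≤ c₁ * ε * x ^ 7 := by gcongr
    linarith
  have f2 : x ^ 4 / c₁ * (2 * (Real.exp (-(x ^ (1 / 2 : ℝ))) + 8 * x ^ 3 * Real.exp (-(x ^ c)))) =
      2 / c₁ * x ^ 4 * Real.exp (-(x ^ (1 / 2 : ℝ))) + 16 / c₁ * x ^ 7 * Real.exp (-(x ^ c)) := by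
    field_simp
    ring
  rw [mul_add, f2]
  linarith

end Pool.Agent.Helper33.TB
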