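import Pool.Agent.Helper33.TB.Asm3

/-!
# Project TB: assembly, the block length and the range of `K`
-/

set_option autoImplicit false

open Finset Filter Topology

namespace Pool.Agent.Helper33.TB

open Pool.Agent.Helper90.Twin (Ps Gz Gz_pos Gz_anti mem_Ps)

theorem Gz_le_one (z : ℕ) : Gz z ≤ 1 := by
  refine (Gz_anti (Nat.zero_le z)).trans ?_
  have : Ps 0 = ∅ := by
    ext p
    simp only [mem_Ps, Finset.notMem_empty, iff_false]
    omega
  unfold Gz Pool.Agent.Helper90.Twin.GG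
  rw [this, Finset.prod_empty]

/-- the block length -/
noncomputable def bz (z : ℕ) : ℕ := ⌈Real.sqrt (Real.log z) / Gz (ell z ^ 20)⌉₊

theorem blk {c₁ c₂ : ℝ} (hc₁ : 0 < c₁) (hc₂ : 0 < c₂) {c : ℝ} (hc : 0 < c) (b₀ : ℕ) {ε : ℝ}
    (hε : 0 < ε) : ∀ᶠ z : ℕ in atTop, Fct c₁ c₂ 20 z →
      b₀ ≤ bz z ∧ bz z ≤ ell z ^ 20 ∧ ell z ^ 20 ≤ bz z ^ 80 ∧ 2 ≤ Gz (ell z ^ 20) * bz z ∧
      Gz (ell z ^ 20) * bz z * Real.sqrt (Gz z / Gz (ell z ^ 20)) ≤ ε ∧
      Real.exp (-((bz z : ℝ) ^ c)) * ((bz z : ℝ) + 1) ^ 3 /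
        ((Gz z / Gz (ell z ^ 20)) * Gz (ell z ^ 20) ^ 2) ≤ ε := by
  have e1 : ∀ᶠ x : ℝ in atTop, 3200 / c₁ * (Real.log x) ^ 2 ≤ x ^ (1 / 2 : ℝ) :=
    ev_log_pow _ _ (by norm_num)
  have e2 : ∀ᶠ x : ℝ in atTop, 2 * Real.sqrt (1600 * (c₂ / c₁)) / ε * (Real.log x) ^ 1 ≤
      x ^ (1 / 2 : ℝ) := ev_log_pow _ _ (by norm_num)
  have e3 : ∀ᶠ x : ℝ in atTop, 8 / c₁ * x ^ 6 * Real.exp (-(x ^ (c / 2))) ≤ ε :=
    ev_exp (8 / c₁) 6 (by positivity) hε
  have e4 : ∀ᶠ x : ℝ in atTop, max 4 ((b₀ : ℝ) ^ 2) ≤ x := eventually_ge_atTop _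
  filter_upwards [tendsto_log_nat.eventually e1, tendsto_log_nat.eventually e2,
    tendsto_log_nat.eventually e3, tendsto_log_nat.eventually e4] with z a1 a2 a3 a4 hF
  have ht := tau_bounds hc₁ hc₂ hF
  have hL := hF.Llow
  have hLu := hF.Lup
  have hl1 := hF.l1
  have g1 := hF.glow
  have r1 := hF.rlow
  have hLz := hF.Lz
  unfold Rz at ht
  set x := Real.log z with hx
  set l := Real.log x with hl
  set L := ell z ^ 20 with hLdef
  have hx4 : 4 ≤ x := (le_max_left _ _).trans a4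
  have hb0x : (b₀ : ℝ) ^ 2 ≤ x := (le_max_right _ _).trans a4
  have hx0 : 0 < x := by linarith
  have hl0 : 0 < l := by linarith
  have hρ := Gz_pos L
  have hρ1 := Gz_le_one L
  have hg := Gz_pos z
  set ρ := Gz L with hρdef
  set g := Gz z with hgdef
  rw [← Real.sqrt_eq_rpow] at a1 a2
  have hs0 : 0 < Real.sqrt x := Real.sqrt_pos.2 hx0
  have hss : Real.sqrt x * Real.sqrt x = x := Real.mul_self_sqrt hx0.le
  have hs2 : 2 ≤ Real.sqrt x := by
    apply Real.le_sqrt_of_sq_le; linarith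
  have hbdef : bz z = ⌈Real.sqrt x / ρ⌉₊ := rfl
  set b := bz z with hb
  have hb1 : Real.sqrt x / ρ ≤ b := by rw [hbdef]; exact Nat.le_ceil _
  have hb2 : (b : ℝ) < Real.sqrt x / ρ + 1 := by
    rw [hbdef]; exact Nat.ceil_lt_add_one (by positivity)
  have hb3 : Real.sqrt x ≤ b := by
    refine le_trans ?_ hb1
    rw [le_div_iff₀ hρ]
    nlinarith
  have hr : 1600 * l ^ 2 / c₁ ≤ Real.sqrt x / 2 := by
    have : 3200 / c₁ * l ^ 2 = 2 * (1600 * l ^ 2 / c₁) := by ring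
    linarith
  have hinv : 1 / ρ ≤ 1600 * l ^ 2 / c₁ := by
    rw [div_le_iff₀ (by positivity)] at r1
    push_cast at r1
    rw [div_le_div_iff₀ hρ hc₁]
    nlinarith [r1]
  have hb4 : (b : ℝ) ≤ x := by
    have h1 : Real.sqrt x / ρ ≤ x / 2 := by
      calc Real.sqrt x / ρ = Real.sqrt x * (1 / ρ) := by ring
        _ ≤ Real.sqrt x * (Real.sqrt x / 2) := by
            apply mul_le_mul_of_nonneg_left (hinv.trans hr) hs0.le
        _ = x / 2 := by rw [← mul_div_assoc, hss]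
    linarith
  refine ⟨?_, ?_, ?_, ?_, ?_, ?_⟩
  · have : (b₀ : ℝ) ≤ Real.sqrt x := Real.le_sqrt_of_sq_le hb0x
    exact_mod_cast this.trans hb3
  · have h1 : x ≤ x ^ 20 := by
      calc x = x ^ 1 := (pow_one _).symm
        _ ≤ x ^ 20 := pow_le_pow_right₀ (by linarith) (by norm_num)
    exact_mod_cast hb4.trans (h1.trans hL)
  · have h1 : (L : ℝ) ≤ ((b ^ 80 : ℕ) : ℝ) := by
      calc (L : ℝ) ≤ (2 * x) ^ 20 := hLu
        _ ≤ (x ^ 2) ^ 20 := by
            gcongr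
            nlinarith
        _ = (Real.sqrt x) ^ 80 := by
            rw [show (80 : ℕ) = 2 * 40 by norm_num, pow_mul, Real.sq_sqrt hx0.le, ← pow_mul]
        _ ≤ (b : ℝ) ^ 80 := by gcongr
        _ = ((b ^ 80 : ℕ) : ℝ) := by push_cast; rfl
    exact_mod_cast h1
  · have : Real.sqrt x ≤ ρ * b := by
      rw [div_le_iff₀ hρ] at hb1
      linarith
    linarith
  · have h1 : ρ * b ≤ 2 * Real.sqrt x := by
      have h2 : ρ * b ≤ ρ * (Real.sqrt x / ρ + 1) := by gcongr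
      have h3 : ρ * (Real.sqrt x / ρ + 1) = Real.sqrt x + ρ := by field_simp
      linarith
    have h2 : g / ρ ≤ (1600 * (c₂ / c₁)) * (l / x) ^ 2 := by
      have h3 := ht.1
      have h4 : (x / l) ^ 2 * (g / ρ) * (l / x) ^ 2 = g / ρ := by field_simp
      calc g / ρ = (x / l) ^ 2 * (g / ρ) * (l / x) ^ 2 := h4.symm
        _ ≤ _ := by gcongr
    have h3 : Real.sqrt (g / ρ) ≤ Real.sqrt (1600 * (c₂ / c₁)) * (l / x) := by
      calc Real.sqrt (g / ρ) ≤ Real.sqrt ((1600 * (c₂ / c₁)) * (l / x) ^ 2) := Real.sqrt_le_sqrt h2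
        _ = _ := by rw [Real.sqrt_mul (by positivity), Real.sqrt_sq (by positivity)]
    calc ρ * b * Real.sqrt (g / ρ)
        ≤ (2 * Real.sqrt x) * (Real.sqrt (1600 * (c₂ / c₁)) * (l / x)) := by gcongr
      _ = (2 * Real.sqrt (1600 * (c₂ / c₁)) / ε * l ^ 1) * (ε * Real.sqrt x / x) := by
          field_simp
      _ ≤ Real.sqrt x * (ε * Real.sqrt x / x) := by gcongr
      _ = ε := by
          rw [show Real.sqrt x * (ε * Real.sqrt x / x) = ε * (Real.sqrt x * Real.sqrt x) / x by ring,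
            hss]
          field_simp
  · have h1 : (g / ρ) * ρ ^ 2 = g * ρ := by field_simp
    rw [h1]
    have h2 : 1 / (g * ρ) ≤ x ^ 3 / c₁ := by
      have h3 : 1 / g ≤ x ^ 2 / c₁ := by
        rw [div_le_iff₀ (by positivity)] at g1
        rw [div_le_div_iff₀ hg hc₁]
        linarith
      calc 1 / (g * ρ) = (1 / g) * (1 / ρ) := by field_simp
        _ ≤ (x ^ 2 / c₁) * x := by
            apply mul_le_mul h3 _ (by positivity) (by positivity)
            have : Real.sqrt x / 2 ≤ x := by nlinarith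
            linarith
        _ = x ^ 3 / c₁ := by ring
    calc Real.exp (-((b : ℝ) ^ c)) * ((b : ℝ) + 1) ^ 3 / (g * ρ)
        = Real.exp (-((b : ℝ) ^ c)) * ((b : ℝ) + 1) ^ 3 * (1 / (g * ρ)) := by ring
      _ ≤ Real.exp (-(x ^ (c / 2))) * (2 * x) ^ 3 * (x ^ 3 / c₁) := by
          have h4 := exp_rpow_le hx0.le hb3 hc
          have h5 : (b : ℝ) + 1 ≤ 2 * x := by linarith
          gcongr
      _ = 8 / c₁ * x ^ 6 * Real.exp (-(x ^ (c / 2))) := by ring
      _ ≤ ε := a3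

/-- the range of `K = 1 / Gz z` -/
theorem K_range {c₁ c₂ : ℝ} (hc₁ : 0 < c₁) (hc₂ : 0 < c₂) (N : ℝ) : ∀ᶠ z : ℕ in atTop,
    Fct c₁ c₂ 20 z → N ≤ 1 / Gz z ∧ (1 / Gz z) ^ 3 ≤ ((ell z ^ 20 : ℕ) : ℝ) ∧
      ((ell z ^ 20 : ℕ) : ℝ) ≤ (1 / Gz z) ^ 11 ∧
      |Real.log (1 / Gz z) - 2 * Real.log (Real.log z)| ≤ |Real.log c₁| + |Real.log c₂| := by
  have e1 : ∀ᶠ x : ℝ in atTop, max 4 (max N (max (1 / c₁) (max c₂ (2 ^ 20 * c₂ ^ 11)))) ≤ x :=
    eventually_ge_atTop _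
  filter_upwards [tendsto_log_nat.eventually e1] with z a1 hF
  have hLu := hF.Lup
  have hLl := hF.Llow
  have g1 := hF.glow
  have g2 := hF.gup
  set x := Real.log z with hx
  have hx4 : 4 ≤ x := (le_max_left _ _).trans a1
  have a2 := (le_max_right _ _).trans a1
  have hN : N ≤ x := (le_max_left _ _).trans a2
  have a3 := (le_max_right _ _).trans a2
  have hc1x : 1 / c₁ ≤ x := (le_max_left _ _).trans a3
  have a4 := (le_max_right _ _).trans a3
  have hc2x : c₂ ≤ x := (le_max_left _ _).trans a4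
  have hc2x' : 2 ^ 20 * c₂ ^ 11 ≤ x := (le_max_right _ _).trans a4
  have hx0 : 0 < x := by linarith
  have hg := Gz_pos z
  set g := Gz z with hgdef
  rw [div_le_iff₀ (by positivity)] at g1
  rw [le_div_iff₀ (by positivity)] at g2
  have k1 : 1 / g ≤ x ^ 2 / c₁ := by
    rw [div_le_div_iff₀ hg hc₁]; linarith
  have k2 : x ^ 2 / c₂ ≤ 1 / g := by
    rw [div_le_div_iff₀ hc₂ hg]; linarith
  have k3 : x ≤ 1 / g := by
    refine le_trans ?_ k2
    rw [le_div_iff₀ hc₂]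
    nlinarith
  refine ⟨hN.trans k3, ?_, ?_, ?_⟩
  · refine le_trans ?_ hLl
    calc (1 / g) ^ 3 ≤ (x ^ 2 / c₁) ^ 3 := by gcongr
      _ = (x ^ 2 * (1 / c₁)) ^ 3 := by ring
      _ ≤ (x ^ 2 * x) ^ 3 := by gcongr
      _ = x ^ 9 := by ring
      _ ≤ x ^ 20 := pow_le_pow_right₀ (by linarith) (by norm_num)
  · refine hLu.trans ?_
    calc (2 * x) ^ 20 = 2 ^ 20 * x ^ 20 := by ring
      _ ≤ (x / c₂ ^ 11) * x ^ 20 := by
          apply mul_le_mul_of_nonneg_right _ (by positivity)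
          rw [le_div_iff₀ (by positivity)]
          exact hc2x'
      _ ≤ (x ^ 2 / c₂) ^ 11 := by
          rw [div_pow, div_mul_eq_mul_div]
          apply div_le_div_of_nonneg_right _ (by positivity)
          calc x * x ^ 20 = x ^ 21 := by ring
            _ ≤ x ^ 22 := pow_le_pow_right₀ (by linarith) (by norm_num)
            _ = (x ^ 2) ^ 11 := by ring
      _ ≤ (1 / g) ^ 11 := by gcongr
  · have h1 : Real.log (1 / g) ≤ 2 * Real.log x - Real.log c₁ := by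
      calc Real.log (1 / g) ≤ Real.log (x ^ 2 / c₁) := Real.log_le_log (by positivity) k1
        _ = 2 * Real.log x - Real.log c₁ := by
            rw [Real.log_div (by positivity) hc₁.ne', Real.log_pow]; push_cast; ring
    have h2 : 2 * Real.log x - Real.log c₂ ≤ Real.log (1 / g) := by
      calc 2 * Real.log x - Real.log c₂ = Real.log (x ^ 2 / c₂) := by
            rw [Real.log_div (by positivity) hc₂.ne', Real.log_pow]; push_cast; ring
        _ ≤ Real.log (1 / g) := Real.log_le_log (by positivity) k2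
    rw [abs_le]
    constructor
    · have := le_abs_self (Real.log c₂)
      have := abs_nonneg (Real.log c₁)
      linarith
    · have := neg_abs_le (Real.log c₁)
      have := abs_nonneg (Real.log c₂)
      linarith

end Pool.Agent.Helper33.TB
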