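import Pool.Agent.Helper33.TB.Asm4

/-!
# Project TB: assembly of the core theorem
-/

set_option autoImplicit false

open Finset Filter Topology

namespace Pool.Agent.Helper33.TB

open Pool.Agent.Helper90.Twin (Ps Gz Gz_pos Gz_anti mem_Ps)

theorem GX_nonneg (X : ℕ) : 0 ≤ GX X := by
  unfold GX
  apply Finset.sum_nonneg
  intro q hq
  apply Finset.prod_nonneg
  intro p hp
  rw [Finset.mem_filter] at hq
  have h2 := Nat.prime_of_mem_primeFactors hp
  have h3 : 2 ≤ p := h2.two_le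
  have h4 : (2 : ℝ) ≤ p := by exact_mod_cast h3
  apply div_nonneg (by norm_num)
  linarith

/-- the first approximation: `R z * D z` is close to `- R z * Gz z * GX (1 / Gz z) / 2` -/
theorem claim (hX : StmtXSB) (hEX : StmtEX) (hABS : StmtABS) (hTL : StmtTL) (hAM : StmtAM)
    (hCC : StmtCC) (hAV : StmtAV) (hE1 : StmtE1) (hE2 : StmtE2) :
    ∃ C : ℝ, 0 < C ∧ ∀ ε : ℝ, 0 < ε → ε ≤ 1 → ∀ᶠ z : ℕ in atTop,
      |Rz z * Dz z + Rz z * (Gz z * GX ⌊1 / Gz z⌋₊ / 2)| ≤ C * ε := by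
  obtain ⟨c₁, c₂, hc₁, hc₂, Z, hM⟩ := mertens hE2
  set γ : ℝ := Real.exp (-2 * Real.eulerMascheroniConstant) / 2 with hγ
  have hγ0 : 0 < γ := by positivity
  set C₁ : ℝ := 1600 * (c₂ / c₁) with hC₁
  have hC₁0 : 0 < C₁ := by positivity
  set C₂ : ℝ := 9 * (γ + 1) * (c₂ / (400 * c₁)) with hC₂
  have hC₂0 : 0 < C₂ := by positivity
  refine ⟨1 + C₁ * (3 + C₂), by positivity, ?_⟩
  intro ε hε hε1
  obtain ⟨c, hc, htail⟩ := tail_bound (c₁ := c₁) (c₂ := c₂) (m := 20) hX hTL hCC (by norm_num)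
  obtain ⟨c', hc', b₀, hconc⟩ := hCC 80 (ε / 36000) (by positivity)
  obtain ⟨K₀, hK₀⟩ := hE1 11 ε (by norm_num) hε
  obtain ⟨N, hN⟩ := hE2 1 one_pos
  have hε3 : 0 < ε / 36000 := by positivity
  have e5 : ∀ᶠ z : ℕ in atTop, N ≤ z := tendsto_natCast_atTop_atTop.eventually_ge_atTop N
  have e6 : ∀ᶠ z : ℕ in atTop, |Real.log c₁| + |Real.log c₂| + 1 ≤ Real.log (Real.log z) :=
    (Real.tendsto_log_atTop.comp tendsto_log_nat).eventually_ge_atTop _
  filter_upwards [ev_fct hc₁ hc₂ hM (m := 20) (by norm_num), htail,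
    EA_bound (c₁ := c₁) (c₂ := c₂) hc₁ hc hε, blk hc₁ hc₂ hc' b₀ hε3,
    K_range hc₁ hc₂ (max K₀ N), e5, e6] with z hF htail hEA hblk hK hzN hlog
  replace htail := htail hF
  replace hEA := hEA hF
  obtain ⟨p1, p2, p3, p4, p5, p6⟩ := hblk hF
  obtain ⟨k1, k2, k3, k4⟩ := hK hF
  obtain ⟨t1, t2⟩ := tau_bounds hc₁ hc₂ hF
  have hconc' := hconc (bz z) (ell z ^ 20) p1 p2 p3
  have hx2 := hF.x2
  have hl1 := hF.l1
  have hR : Rz z = (Real.log z / Real.log (Real.log z)) ^ 2 := rfl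
  obtain ⟨el1, el2⟩ := ell_bounds (by linarith : 1 ≤ Real.log z)
  set x := Real.log z with hx
  set l := Real.log x with hl
  have hx0 : 0 < x := by linarith
  have hl0 : 0 < l := by linarith
  have hLz := hF.Lz
  have hell1 : 1 ≤ ell z := by
    have : (1 : ℝ) ≤ ell z := by linarith
    exact_mod_cast this
  have hRpos : 0 < Rz z := by rw [hR]; positivity
  set L := ell z ^ 20 with hL
  have hρ := Gz_pos L
  have hg := Gz_pos z
  have hgρ : Gz z ≤ Gz L := Gz_anti hLz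
  have hτ0 : 0 < Gz z / Gz L := by positivity
  have hτ1 : Gz z / Gz L ≤ 1 := by rwa [div_le_one hρ]
  have hgτ : Gz z = Gz z / Gz L * Gz L := by field_simp
  have hg1 : Gz z < 1 := by
    have h1 := hF.gup
    have h2 := (K_range hc₁ hc₂ 2)
    have h3 : 1 / Gz z ≥ 2 ∨ 1 / Gz z < 2 := le_or_gt 2 (1 / Gz z)
    by_contra h4
    push Not at h4
    have h5 : Gz z = 1 := le_antisymm (Gz_le_one z) h4
    rw [h5] at k4
    simp only [div_one, Real.log_one, zero_sub, abs_neg] at k4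
    rw [abs_of_pos (by positivity : 0 < 2 * l)] at k4
    linarith
  have hSq := hX.ne (Ps L) (Ps_prime5 L)
  obtain ⟨⟨F, hFper, hFrec, hFb⟩, ⟨V, hVper, hVrec, hVb⟩⟩ :=
    hEX (QS (Ps L)) (XS (Ps L)) hSq (Gz z / Gz L) (Gz z) hτ0 hτ1 hg hg1
  -- part A
  have hH20 : 3 * ell z ^ 3 + 1 ≤ L := by
    have h1 : (2 : ℝ) ≤ ell z := by linarith
    have h2 : 2 ≤ ell z := by exact_mod_cast h1
    have h3 : 4 ≤ ell z ^ 17 := by
      calc 4 ≤ 2 ^ 17 := by norm_num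
        _ ≤ ell z ^ 17 := Nat.pow_le_pow_left h2 17
    have h4 : 1 ≤ ell z ^ 3 := Nat.one_le_pow _ _ (by omega)
    have h5 : L = ell z ^ 17 * ell z ^ 3 := by rw [hL, ← pow_add]
    rw [h5]
    nlinarith
  have hL1 : 1 ≤ L := Nat.one_le_pow _ _ (by omega)
  have hAM1 := hAM L z (ell z ^ 3) hH20 hL1 hLz F hFper hFrec hFb
  set T := Av (QS (Ps L)) (fun t => XS (Ps L) t * Pc (XS (Ps L)) (Gz z / Gz L) (ell z ^ 3) t) with hT
  have hT0 : 0 ≤ T := by
    rw [hT]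
    unfold Av
    apply div_nonneg _ (Nat.cast_nonneg _)
    apply Finset.sum_nonneg
    intro t _
    exact mul_nonneg (XS_nonneg hX _ _)
      (Pc_nonneg (fun t => XS_nonneg hX (Ps L) t) (fun t => XS_le_one hX (Ps L) t) hτ1 _ _)
  have hxH : x ≤ ((ell z ^ 3 : ℕ) : ℝ) := by
    push_cast
    have h1 : (1 : ℝ) ≤ ell z := by linarith
    calc x ≤ ell z := el1
      _ = (ell z : ℝ) ^ 1 := (pow_one _).symm
      _ ≤ (ell z : ℝ) ^ 3 := pow_le_pow_right₀ h1 (by norm_num)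
  have hTb := htail (ell z ^ 3) hxH
  have hEA1 := hEA T hT0 hTb
  set EA : ℝ := 8 * (((ell z ^ 3 : ℕ) : ℝ) + 1) ^ 3 / ((L : ℕ) : ℝ) + 2 * (Gz z / Gz L) * T with hEAdef
  have hD : Gz z * Dz z = Av (QS (Ps z)) (fun t => XS (Ps z) t * nx (XS (Ps z)) t) := by
    unfold Dz
    field_simp
  rw [← hD] at hAM1
  -- part B
  have hρA : Av (QS (Ps L)) (XS (Ps L)) = Gz L := AvX hX L
  set AF := Av (QS (Ps L)) (fun t => XS (Ps L) t * F t) with hAF
  set AVV := Av (QS (Ps L)) (fun t => XS (Ps L) t * V t) with hAVV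
  have hABS1 := hABS (QS (Ps L)) (XS (Ps L)) hSq (Gz z / Gz L) (bz z) (ε / 36000)
    (Real.exp (-((bz z : ℝ) ^ c'))) F V hτ0 hτ1 hε3.le (by linarith) (Real.exp_pos _).le
  rw [hρA] at hABS1
  have hβ1 : Gz L * (bz z : ℝ) * Real.sqrt (Gz z / Gz L) ≤ 1 := by linarith
  rw [← hgτ] at hABS1
  have hsum : 12000 * (ε / 36000 + Gz L * (bz z : ℝ) * Real.sqrt (Gz z / Gz L) +
      Real.exp (-((bz z : ℝ) ^ c')) * ((bz z : ℝ) + 1) ^ 3 / (Gz z / Gz L * Gz L ^ 2)) ≤ ε := by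
    linarith
  have hABS2 := hABS1 p4 hβ1 hconc' hFper hVper hFrec hVrec hFb hVb (by linarith)
  have hABS3 : |AF - AVV| ≤ ε * (Gz L + |AVV|) := by
    refine hABS2.trans ?_
    apply mul_le_mul_of_nonneg_right hsum
    have := abs_nonneg AVV
    linarith
  -- part E
  have hAV1 := hAV L (Gz z) V hg hg1 hVper hVrec
  rw [← hAVV] at hAV1
  have hE11 := hK₀ (1 / Gz z) L ((le_max_left _ _).trans k1) k2 k3
  rw [one_div_one_div] at hE11
  set S := ∑' h : ℕ, (-1 : ℝ) ^ (h + 1) * ((1 - Gz z) ^ h * PL L (h + 1)) with hS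
  set G := GX ⌊1 / Gz z⌋₊ with hG
  have hG0 : 0 ≤ G := GX_nonneg _
  have hch := chain hg hρ hτ0 hgτ hAM1 hABS3 hAV1 hE11 hε.le hG0
  -- bound of ρ G
  have hE21 := hN (1 / Gz z) z ((le_max_right _ _).trans k1) hzN
  rw [← hG, ← hγ] at hE21
  have hlogK : Real.log (1 / Gz z) ≤ 3 * l := by
    rw [abs_le] at k4
    linarith [k4.2]
  have hlogK0 : 0 < Real.log (1 / Gz z) := by
    rw [abs_le] at k4
    linarith [k4.1]
  have hgG : Gz z * G ≤ (γ + 1) * (3 * l / x) ^ 2 := by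
    rw [abs_le] at hE21
    have h1 : Gz z * G / (Real.log (1 / Gz z) / x) ^ 2 ≤ γ + 1 := by linarith [hE21.2]
    have h2 : 0 < (Real.log (1 / Gz z) / x) ^ 2 := by positivity
    rw [div_le_iff₀ h2] at h1
    refine h1.trans ?_
    gcongr
  have hρG : Gz L * G ≤ C₂ := by
    have h1 : Gz L * G = (Gz z * G) * (Rz z * (1 / (Rz z * (Gz z / Gz L)))) := by
      field_simp
    have h2 : 1 / (Rz z * (Gz z / Gz L)) ≤ 1 / (400 * (c₁ / c₂)) := by
      apply one_div_le_one_div_of_le (by positivity) t2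
    rw [h1]
    calc (Gz z * G) * (Rz z * (1 / (Rz z * (Gz z / Gz L))))
        ≤ ((γ + 1) * (3 * l / x) ^ 2) * (Rz z * (1 / (400 * (c₁ / c₂)))) := by
          gcongr
      _ = C₂ := by
          rw [hR, hC₂]
          field_simp
          ring
  -- conclusion
  have hfin : |Rz z * Dz z + Rz z * (Gz z * G / 2)| = Rz z * |Dz z + Gz z * G / 2| := by
    rw [← mul_add, abs_mul, abs_of_pos hRpos]
  rw [hfin]
  have h9 : Rz z * |Dz z + Gz z * G / 2| ≤ Rz z * (EA / Gz z) +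
      (Rz z * (Gz z / Gz L)) * (ε * (1 + Gz L * G / 2 + ε) + ε) := by
    calc Rz z * |Dz z + Gz z * G / 2| ≤
        Rz z * (EA / Gz z + Gz z / Gz L * (ε * (1 + Gz L * G / 2 + ε) + ε)) := by gcongr
      _ = _ := by ring
  refine h9.trans ?_
  have h10 : ε * (1 + Gz L * G / 2 + ε) + ε ≤ (3 + C₂) * ε := by
    have h11 : ε * (1 + Gz L * G / 2 + ε) ≤ ε * (1 + C₂ + 1) := by
      apply mul_le_mul_of_nonneg_left _ hε.le
      linarith
    linarith
  have h12 : (Rz z * (Gz z / Gz L)) * (ε * (1 + Gz L * G / 2 + ε) + ε) ≤ C₁ * ((3 + C₂) * ε) := by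
    apply mul_le_mul t1 h10 _ hC₁0.le
    positivity
  calc Rz z * (EA / Gz z) + (Rz z * (Gz z / Gz L)) * (ε * (1 + Gz L * G / 2 + ε) + ε)
      ≤ ε + C₁ * ((3 + C₂) * ε) := add_le_add hEA1 h12
    _ = _ := by ring

end Pool.Agent.Helper33.TB
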