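import Pool.Agent.Helper33.TB.Goals
import Pool.Agent.Helper22.TB.Defs

/-!
# Project TB: the interface of helper22 in the form used by the assembly
-/

set_option autoImplicit false

open Finset Filter Topology

namespace Pool.Agent.Helper33.TB

open Pool.Agent.Helper90.Twin (Ps Gz)

theorem wp_eq (p h : ℕ) : Pool.Agent.Helper22.TB.wp p h = wp p h := by
  unfold Pool.Agent.Helper22.TB.wp wp
  by_cases h1 : p ∣ h
  · rw [if_pos h1, if_pos h1]
  · rw [if_neg h1, if_neg h1]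
    by_cases h2 : p ∣ 3 * h - 1 ∨ p ∣ 3 * h + 1
    · rw [if_pos h2, if_pos h2.symm]
    · rw [if_neg h2, if_neg (fun h3 => h2 h3.symm)]

theorem PL_eq (L h : ℕ) : Pool.Agent.Helper22.TB.PL L h = PL L h := by
  unfold Pool.Agent.Helper22.TB.PL PL
  exact Finset.prod_congr rfl (fun p _ => wp_eq p h)

theorem GX_eq (K : ℝ) : Pool.Agent.Helper22.TB.GX K = GX ⌊K⌋₊ := by
  unfold Pool.Agent.Helper22.TB.GX GX
  apply Finset.sum_congr
  · ext q
    simp only [Finset.mem_filter, Pool.Agent.Helper22.TB.SF6]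
  · intro q _
    rfl

theorem convE1 (h : Pool.Agent.Helper22.TB.StmtE1) : StmtE1 := by
  intro A ε hA hε
  obtain ⟨K0, h0⟩ := h ε hε A hA
  refine ⟨K0, fun K L hK h1 h2 => ?_⟩
  have h3 := h0 K hK L h1 h2
  rw [GX_eq] at h3
  have h4 : (∑' h : ℕ, (-1 : ℝ) ^ (h + 1) * (1 - 1 / K) ^ h * Pool.Agent.Helper22.TB.PL L (h + 1)) =
      ∑' h : ℕ, (-1 : ℝ) ^ (h + 1) * ((1 - 1 / K) ^ h * PL L (h + 1)) := by
    apply tsum_congr
    intro h
    rw [PL_eq, mul_assoc]
  rw [h4] at h3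
  exact h3

theorem convE2 (h : Pool.Agent.Helper22.TB.StmtE2) : StmtE2 := by
  intro ε hε
  obtain ⟨N, h0⟩ := h ε hε
  refine ⟨N, fun K z hK hz => ?_⟩
  have h3 := h0 K hK z hz
  rw [GX_eq] at h3
  have h4 : -2 * Real.eulerMascheroniConstant = -(2 * Real.eulerMascheroniConstant) := by ring
  rw [h4]
  exact h3

end Pool.Agent.Helper33.TB
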