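import Pool.Agent.Helper90.TwinU

/-!
# Project TB (MP_74f661_nt): the bias of rough twin pairs, definitions

`n = 6 t + 5`; the pair `(n, n + 2)` has no prime factor `≤ z` iff `XS (Ps z) t = 1`.
-/

set_option autoImplicit false

open Finset

namespace Pool.Agent.Helper33.TB

open Pool.Agent.Helper90.Twin (Ps Gz)

/-! ## Periodic functions on the integers and their averages -/

/-- average over a period -/
noncomputable def Av (Q : ℕ) (f : ℤ → ℝ) : ℝ := (∑ t ∈ range Q, f (t : ℤ)) / (Q : ℝ)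

/-- `f` has period `Q` -/
def Per (Q : ℕ) (f : ℤ → ℝ) : Prop := ∀ t : ℤ, f (t + Q) = f t

/-- number of elements at the positions `t, t + 1, …, t + b - 1` -/
noncomputable def Nb (X : ℤ → ℝ) (b : ℕ) (t : ℤ) : ℝ := ∑ i ∈ range b, X (t + (i : ℤ))

/-- a periodic non-empty set of integers, given by its indicator `X` -/
structure Sq (Q : ℕ) (X : ℤ → ℝ) : Prop where
  pos : 0 < Q
  per : Per Q X
  zo : ∀ t, X t = 0 ∨ X t = 1
  ne : ∃ t, X t = 1

/-- `F t = ∑_{h ≥ 1} (-1)^h X (t+h) ∏_{0 < i < h} (1 - τ X (t+i))` (index weights) -/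
def RecF (X : ℤ → ℝ) (τ : ℝ) (F : ℤ → ℝ) : Prop :=
  ∀ t, F t = -X (t + 1) - (1 - τ * X (t + 1)) * F (t + 1)

/-- `V t = ∑_{h ≥ 1} (-1)^h X (t-h) (1 - s)^(h-1)` (position weights) -/
def RecV (X : ℤ → ℝ) (s : ℝ) (V : ℤ → ℝ) : Prop :=
  ∀ t, V (t + 1) = -X t - (1 - s) * V t

open Classical in
/-- the proportion of the `t` for which the count in the block deviates by more than `ε ρ b` is at
most `δ` -/
def Conc (Q : ℕ) (X : ℤ → ℝ) (b : ℕ) (ε δ : ℝ) : Prop :=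
  Av Q (fun t => if ε * (Av Q X * b) < |Nb X b t - Av Q X * b| then 1 else 0) ≤ δ

/-- product of the factors between `t` and `t + h` -/
noncomputable def Pw (X : ℤ → ℝ) (τ : ℝ) (h : ℕ) (t : ℤ) : ℝ :=
  ∏ i ∈ Ioo 0 h, (1 - τ * X (t + (i : ℤ)))

/-- `∏_{1 ≤ i ≤ H} (1 - τ X (t + i))` -/
noncomputable def Pc (X : ℤ → ℝ) (τ : ℝ) (H : ℕ) (t : ℤ) : ℝ :=
  ∏ i ∈ Icc 1 H, (1 - τ * X (t + (i : ℤ)))

/-- distance from `t` to the next element -/
noncomputable def nd (X : ℤ → ℝ) (t : ℤ) : ℕ := sInf {h : ℕ | 1 ≤ h ∧ X (t + h) = 1}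

/-- sign of the next element relative to `t` -/
noncomputable def nx (X : ℤ → ℝ) (t : ℤ) : ℝ := (-1) ^ nd X t

/-! ## The sieve -/

open Classical in
/-- indicator of `p ∣ (6 t + 5) (6 t + 7)` -/
noncomputable def yI (p : ℕ) (t : ℤ) : ℝ :=
  if (p : ℤ) ∣ 6 * t + 5 ∨ (p : ℤ) ∣ 6 * t + 7 then 1 else 0

/-- indicator of the sifted set -/
noncomputable def XS (s : Finset ℕ) (t : ℤ) : ℝ := ∏ p ∈ s, (1 - yI p t)

/-- the period -/
def QS (s : Finset ℕ) : ℕ := ∏ p ∈ s, p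

/-- the density `∏ (1 - 2/p)` -/
noncomputable def gS (s : Finset ℕ) : ℝ := ∏ p ∈ s, (1 - 2 / (p : ℝ))

/-- the average of the sign of the next element over the elements of the full period:
`D_z = δ(same class) - δ(other class)` -/
noncomputable def Dz (z : ℕ) : ℝ :=
  Av (QS (Ps z)) (fun t => XS (Ps z) t * nx (XS (Ps z)) t) / Gz z

open Classical in
/-- local factor of the pair correlation -/
noncomputable def wp (p h : ℕ) : ℝ :=
  if p ∣ h then 1 else if p ∣ 3 * h + 1 ∨ p ∣ 3 * h - 1 then ((p : ℝ) - 3) / ((p : ℝ) - 2)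
  else ((p : ℝ) - 4) / ((p : ℝ) - 2)

/-- the probability of `h ∈ R_L` given `0 ∈ R_L` -/
noncomputable def PL (L h : ℕ) : ℝ := ∏ p ∈ Ps L, wp p h

/-- `∑ ∏ 2/(p-2)` over the squarefree `q ≤ X` prime to `6` -/
noncomputable def GX (X : ℕ) : ℝ :=
  ∑ q ∈ (Icc 1 X).filter (fun q => Squarefree q ∧ Nat.Coprime q 6),
    ∏ p ∈ q.primeFactors, 2 / ((p : ℝ) - 2)

end Pool.Agent.Helper33.TB
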