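import Pool.Agent.Helper33.TB.All
import Pool.Agent.Helper22.TB.All

/-!
# Project TB: the interface statements, unconditional
-/

set_option autoImplicit false

namespace Pool.Agent.Helper33.TB

theorem coreFinal : StmtCORE := core_all Helper22.TB.e1_33 Helper22.TB.e2_33

theorem coregFinal : Helper76.TB.COREG := coreg_all Helper22.TB.e1_33 Helper22.TB.e2_33

theorem longgFinal : Helper76.TB.LONGG := longg_all Helper22.TB.e2_33

theorem gzlgFinal : Helper76.TB.GZLG := gzlg Helper22.TB.e2_33

end Pool.Agent.Helper33.TB
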